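import Pool.Agent.H90.T8.Da
import Pool.Agent.H88.T7.Gd

/-!
ROW Em (project MP_78d38b_T8, about 80 lines): embeddings and square classes.

PROOF. Take representatives (`sc_surj`). em_act: `em (g • σ) (sc x) = sc ((g • σ) x) = sc (g (σ x)) = g • sc (σ x)` (`em_sc`, `H38T1.smul_sc`; `σ x ≠ 0`).
em_res: `res K (sc x) = sc (algebraMap ℚ K x)` (`res_sc`), `σ (algebraMap ℚ K x) = algebraMap ℚ M x` (`AlgHom.commutes`). act_res: `g (algebraMap ℚ M x) = algebraMap ℚ M x`.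
em_sum: `∑ σ, sc (σ x) = sc (∏ σ, σ x)` (induction over the finset with `sc_mul`, `sc 1 = 0`; all factors are nonzero) `= sc (algebraMap ℚ M (norm x))`
(`norm_prod hL`) `= res M (nm K (sc x))` (`nm_sc`, `res_sc`; the norm is not zero).
E0_of_inv: for every `σ` there is `g` with `g • σ₀ = σ` (`trans_emb hL`), so `em σ c = g • em σ₀ c = g • res M r = res M r`. Hence `0 = res M (nm K c) = ∑ σ, em σ c = N • res M r`,
`N = Fintype.card (K →ₐ[ℚ] M) = finrank ℚ K` odd (`hL.card`), and `2 • x = 0` (`H38T1.SC.two_smul`): `N • x = x` (`zsmul_two`). So `em σ c = 0` for all `σ`.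
-/

set_option autoImplicit false
set_option linter.unusedSectionVars false
open scoped Classical

open WithZero NumberField IsDedekindDomain H38RT H88T7 H88T8
open H38T1 (SC sc scu scu_surj sc_mul sc_of_ne sc_surj rep rep_ne sc_rep sc_eq_zero eo la si Pri OddP
  LD XX XX' NS ov rp SqMod)

namespace H90T8

variable {K M : Type} [Field K] [NumberField K] [Field M] [NumberField M]

theorem em_act (g : M ≃ₐ[ℚ] M) (σ : K →ₐ[ℚ] M) (c : SC K) : em (g • σ) c = g • em σ c := by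
  obtain ⟨x, hx, rfl⟩ := sc_surj c
  have h1 : σ x ≠ 0 := (map_ne_zero σ).2 hx
  rw [em_sc _ hx, em_sc _ hx, H38T1.smul_sc g h1, smul_emb_apply]

theorem em_res (σ : K →ₐ[ℚ] M) (r : SC ℚ) : em σ (res K r) = res M r := by
  obtain ⟨x, hx, rfl⟩ := sc_surj r
  have h1 : algebraMap ℚ K x ≠ 0 := (map_ne_zero _).2 hx
  rw [res_sc hx, res_sc hx, em_sc _ h1, AlgHom.commutes]

theorem act_res (g : M ≃ₐ[ℚ] M) (r : SC ℚ) : g • res M r = res M r := by
  obtain ⟨x, hx, rfl⟩ := sc_surj r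
  have h1 : algebraMap ℚ M x ≠ 0 := (map_ne_zero _).2 hx
  rw [res_sc hx, H38T1.smul_sc g h1, AlgEquiv.commutes]

theorem Em_prod {ι : Type*} (s : Finset ι) (f : ι → M) (hf : ∀ i ∈ s, f i ≠ 0) :
    ∑ i ∈ s, sc (f i) = sc (∏ i ∈ s, f i) := by
  induction s using Finset.induction_on with
  | empty =>
    rw [Finset.sum_empty, Finset.prod_empty]
    symm
    rw [sc_eq_zero one_ne_zero]
    exact ⟨1, by ring⟩
  | insert a s ha ih =>
    rw [Finset.sum_insert ha, Finset.prod_insert ha,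
      ih (fun i hi => hf i (Finset.mem_insert_of_mem hi)), sc_mul (hf a (Finset.mem_insert_self _ _))
      (Finset.prod_ne_zero_iff.2 fun i hi => hf i (Finset.mem_insert_of_mem hi))]

theorem em_sum (hL : BigL K M) (c : SC K) : ∑ σ : K →ₐ[ℚ] M, em σ c = res M (nm K c) := by
  obtain ⟨x, hx, rfl⟩ := sc_surj c
  have h1 : ∀ σ : K →ₐ[ℚ] M, σ x ≠ 0 := fun σ => (map_ne_zero σ).2 hx
  have hn : Algebra.norm ℚ x ≠ 0 := Algebra.norm_ne_zero_iff.2 hx
  have h2 : ∑ σ : K →ₐ[ℚ] M, em σ (sc x) = ∑ σ : K →ₐ[ℚ] M, sc (σ x) :=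
    Finset.sum_congr rfl fun σ _ => em_sc σ hx
  rw [h2, Em_prod Finset.univ _ (fun σ _ => h1 σ), norm_prod hL, nm_sc hx, res_sc hn]

theorem E0_of_inv (hodd : Odd (Module.finrank ℚ K)) (hL : BigL K M) {c : SC K} (hc : nm K c = 0)
    {σ₀ : K →ₐ[ℚ] M} {r : SC ℚ} (h : em σ₀ c = res M r) : c ∈ E0m K M := by
  have h1 : ∀ σ : K →ₐ[ℚ] M, em σ c = res M r := by
    intro σ
    obtain ⟨g, hg⟩ := trans_emb hL σ₀ σ
    have h2 : g • σ₀ = σ := by rw [smul_emb]; exact hg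
    rw [← h2, em_act, h, act_res]
  have h3 := em_sum hL c
  rw [Finset.sum_congr rfl (fun σ _ => h1 σ), Finset.sum_const, Finset.card_univ, hL.card, hc,
    map_zero] at h3
  obtain ⟨m, hm⟩ := hodd
  rw [hm, zsmul_two] at h3
  intro σ
  rw [h1 σ, h3]

end H90T8
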