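import Pool.Agent.H90.T8.Da
import Pool.Agent.H90.T8.Em

/-!
ROW Kp (project MP_78d38b_T8, about 130 lines): the functionals on the square classes of `M`.

PROOF. All groups `SC F` are `ZMod 2`-vector spaces (instance in `H38/T1/Df.lean`); additive maps to `ZMod 2` are linear (`AddMonoidHom.toZModLinearMap`, and back
`LinearMap.toAddMonoidHom`). ext0: `Ψ` vanishes on the kernel of `res M`, so it factors through the range of `res M`: there is a linear `g : range → ZMod 2` with `g (res M r) = Ψ r`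
(e.g. `LinearMap.range`, `(LinearMap.quotKerEquivRange)`/`Submodule.liftQ`, or: `res M` as a linear map `f` has a linear map `s` with `f ∘ s ∘ f = f`
(`LinearMap.exists_leftInverse...`, `f.exists_rightInverse_of_surjective` for `rangeRestrict`), and `Φ₀ = Ψ ∘ s`); extend from a subspace to the whole space: `LinearMap.exists_extend`.
ext1: if `y` is not in the range of `res M`, there is `φ : SC M → ZMod 2` linear with `φ y = 1`, `φ = 0` on the range (`Submodule.exists_le_ker_of_notMem`), add `(e - Φ₀ y) • φ`.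
exists_kap: `exists_kappa` (file Ct.lean) with `G = M ≃ₐ[ℚ] M`, `H = K →ₐ[ℚ] M`, `V = SC M`, the space `AddSubgroup.toZModSubmodule 2 X` (finite), `f x σ = em σ x` (linear in `x`), `hf` = `em_act`,
`h0` = `em_sum` and `hnm`, `hinj`: `x ∈ E0m`, so `x = 0`; `htr`: `trans_emb`; `hX`: `Fintype.card = finrank` (`hL.card`), `Nat.card X = ncard`; the finite submodule spanned by the `res M r`, `r ∈ R`
(`Submodule.span`; finite: a finitely generated space over `ZMod 2`, see how it is done in Ct.lean; fixed by `G`: `act_res` and `Submodule.span_induction`), `Ψ := Φ₀` from ext0. (`Ct.lean` may need a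
`DistribMulAction` of `G` on `SC M`: it is an instance in `H38/T1/Df.lean`.)
-/

set_option autoImplicit false
set_option linter.unusedSectionVars false
open scoped Classical

open WithZero NumberField IsDedekindDomain H38RT H88T7 H88T8
open H38T1 (SC sc scu scu_surj sc_mul sc_of_ne sc_surj rep rep_ne sc_rep sc_eq_zero eo la si Pri OddP
  LD XX XX' NS ov rp SqMod)

namespace H90T8

variable {K M : Type} [Field K] [NumberField K] [Field M] [NumberField M]

theorem ext0 {Ψ : SC ℚ →+ ZMod 2} (hΨ : ∀ d ∈ QKm M, Ψ d = 0) :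
    ∃ Φ : SC M →+ ZMod 2, ∀ r, Φ (res M r) = Ψ r := by
  have h1 : Ψ.toZModLinearMap 2 ∈ (LinearMap.ker ((res M).toZModLinearMap 2)).dualAnnihilator := by
    rw [Submodule.mem_dualAnnihilator]
    intro d hd
    exact hΨ d hd
  rw [← LinearMap.range_dualMap_eq_dualAnnihilator_ker] at h1
  obtain ⟨Φ, hΦ⟩ := h1
  exact ⟨Φ.toAddMonoidHom, fun r => LinearMap.congr_fun hΦ r⟩

theorem ext1 {Ψ : SC ℚ →+ ZMod 2} (hΨ : ∀ d ∈ QKm M, Ψ d = 0) {y : SC M}
    (hy : ∀ r, y ≠ res M r) (e : ZMod 2) :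
    ∃ Φ : SC M →+ ZMod 2, (∀ r, Φ (res M r) = Ψ r) ∧ Φ y = e := by
  obtain ⟨Φ₀, hΦ₀⟩ := ext0 (M := M) hΨ
  have hny : y ∉ LinearMap.range ((res M).toZModLinearMap 2) := by
    rintro ⟨r, hr⟩
    exact hy r hr.symm
  obtain ⟨φ, hφ, hle⟩ := Submodule.exists_le_ker_of_notMem hny
  have hφ1 : φ y = 1 := by
    have h : ∀ a : ZMod 2, a ≠ 0 → a = 1 := by decide
    exact h _ hφ
  have hφr : ∀ r, φ (res M r) = 0 := fun r => hle ⟨r, rfl⟩
  refine ⟨Φ₀ + ((e - Φ₀ y) • φ).toAddMonoidHom, fun r => ?_, ?_⟩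
  · change Φ₀ (res M r) + (e - Φ₀ y) * φ (res M r) = Ψ r
    rw [hφr, mul_zero, add_zero, hΦ₀]
  · change Φ₀ y + (e - Φ₀ y) * φ y = e
    rw [hφ1, mul_one]
    abel

theorem exists_kap (hodd : Odd (Module.finrank ℚ K)) (hL : BigL K M)
    (hS : SumZeroSimple (M ≃ₐ[ℚ] M) (K →ₐ[ℚ] M)) (X : AddSubgroup (SC K))
    (hfin : (X : Set (SC K)).Finite) (hnm : ∀ x ∈ X, nm K x = 0)
    (hE : ∀ x ∈ X, x ∈ E0m K M → x = 0)
    (hc : 2 ^ (Module.finrank ℚ K - 1) ≤ (X : Set (SC K)).ncard) (R : Finset (SC ℚ))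
    {Ψ : SC ℚ →+ ZMod 2} (hΨ : ∀ d ∈ QKm M, Ψ d = 0) :
    ∃ Φ : SC M →+ ZMod 2, (∀ r ∈ R, Φ (res M r) = Ψ r) ∧
      ∀ u : (K →ₐ[ℚ] M) → ZMod 2, ∑ σ, u σ = 0 → ∃ x ∈ X, ∀ σ, Φ (em σ x) = u σ := by
  obtain ⟨Φ₀, hΦ₀⟩ := ext0 (M := M) hΨ
  obtain ⟨X', hX'⟩ : ∃ X' : Submodule (ZMod 2) (SC K), X' = AddSubgroup.toZModSubmodule 2 X := ⟨_, rfl⟩
  have hmem : ∀ x, x ∈ X' ↔ x ∈ X := fun x => by rw [hX']; exact Iff.rfl
  have hcoe : (X' : Set (SC K)) = (X : Set (SC K)) := Set.ext hmem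
  haveI hXfin : Finite X' := by
    have h1 : (X' : Set (SC K)).Finite := by rw [hcoe]; exact hfin
    exact h1.to_subtype
  let f : X' →ₗ[ZMod 2] ((K →ₐ[ℚ] M) → SC M) :=
    { toFun := fun x σ => em σ (x : SC K)
      map_add' := fun x y => by
        funext σ
        exact map_add (em σ) _ _
      map_smul' := fun c x => by
        funext σ
        exact ZMod.map_smul (em σ) c (x : SC K) }
  have hfa : ∀ (x : X') (σ : K →ₐ[ℚ] M), f x σ = em σ (x : SC K) := fun _ _ => rfl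
  obtain ⟨R', hR'⟩ : ∃ R' : Submodule (ZMod 2) (SC M), R' = Submodule.span (ZMod 2) ((fun r => res M r) '' (R : Set (SC ℚ))) := ⟨_, rfl⟩
  haveI hRfin : Finite R' := by
    have h2 : R'.FG := by
      rw [hR']
      exact Submodule.fg_span ((Finset.finite_toSet R).image _)
    have : Module.Finite (ZMod 2) R' := Module.Finite.iff_fg.2 h2
    exact Module.finite_of_finite (ZMod 2)
  have hinv : ∀ r ∈ R', ∀ g : M ≃ₐ[ℚ] M, g • r = r := by
    intro r hr g
    rw [hR'] at hr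
    induction hr using Submodule.span_induction with
    | mem x hx =>
      obtain ⟨r, _, rfl⟩ := hx
      exact act_res g r
    | zero => exact smul_zero g
    | add x y _ _ hx hy => rw [smul_add, hx, hy]
    | smul c x _ hx => rw [smul_smul2, hx]
  obtain ⟨κ, h1, h2⟩ := exists_kappa (G := M ≃ₐ[ℚ] M) (H := K →ₐ[ℚ] M) (V := SC M) (X := X')
    (by rw [hL.card]; exact hodd) hS (fun σ τ => trans_emb hL σ τ) f
    (fun x g σ => em_act g σ (x : SC K))
    (fun x => by
      have h3 := em_sum hL (x : SC K)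
      rw [hnm _ ((hmem _).1 x.2), map_zero] at h3
      exact h3)
    (fun x hx => Subtype.ext (hE _ ((hmem _).1 x.2) hx))
    (by
      rw [hL.card]
      refine hc.trans (le_of_eq ?_)
      rw [← hcoe]
      exact (Nat.card_coe_set_eq _).symm) R' hinv (Φ₀.toZModLinearMap 2)
  refine ⟨κ.toAddMonoidHom, fun r hr => ?_, fun u hu => ?_⟩
  · have h3 : res M r ∈ R' := by
      rw [hR']
      exact Submodule.subset_span ⟨r, hr, rfl⟩
    exact (h1 _ h3).trans (hΦ₀ r)
  · obtain ⟨x, hx⟩ := h2 u hu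
    exact ⟨x, (hmem _).1 x.2, hx⟩

end H90T8
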