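import Pool.Agent.H90.T8.Da
import Pool.Agent.H88.T7.Gd

/-!
ROW Tr (project MP_78d38b_T8, about 110 lines): the condition on the Galois group passes from the algebraic closure to every
Galois extension of the rationals which contains the conjugates of `K`.

PROOF. `Ω = AlgebraicClosure ℚ`. Let `i : M →ₐ[ℚ] Ω` (`IsAlgClosed.lift`; `M` is algebraic over `ℚ`). `σ ↦ i.comp σ` is an injective map from
`K →ₐ[ℚ] M` to `K →ₐ[ℚ] Ω`; both sets have `Module.finrank ℚ K` elements (`hL.card`, `AlgHom.card ℚ K Ω`), so it is a bijection `e`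
(`Fintype.bijective_iff_injective_and_card`). For `g : Ω ≃ₐ[ℚ] Ω` let `g' = g.restrictNormal M : M ≃ₐ[ℚ] M` with `Algebra M Ω` given by `i` (see `Gb_abs` in
`Pool/Agent/H88/T7/Gb.lean` for exactly this): `i (g' x) = g (i x)` (`AlgEquiv.restrictNormal_commutes`), so `e (g' • σ) = g • e σ`.
Let `U` be a subspace of `(K →ₐ[ℚ] M) → ZMod 2` as in `SumZeroSimple`, and `U' = {u' | u' ∘ e ∈ U}` (`U.comap (LinearMap.funLeft (ZMod 2) (ZMod 2) e)`). `U'` is stable:
`(s ↦ u' (g • s)) ∘ e = (σ ↦ (u' ∘ e) (g' • σ))`. The sum of `u' ∈ U'` is that of `u' ∘ e` (`Equiv.sum_comp`): zero. `U' ≠ ⊥`: for `0 ≠ u ∈ U`, `u ∘ e.symm ∈ U'`. By `h`,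
every `u'` with sum zero is in `U'`; for `u` with sum zero `u ∘ e.symm` has sum zero, so `u = (u ∘ e.symm) ∘ e ∈ U`.
-/

set_option autoImplicit false
set_option linter.unusedSectionVars false
open scoped Classical

open WithZero NumberField IsDedekindDomain H38RT H88T7 H88T8
open H38T1 (SC sc scu scu_surj sc_mul sc_of_ne sc_surj rep rep_ne sc_rep sc_eq_zero eo la si Pri OddP
  LD XX XX' NS ov rp SqMod)

namespace H90T8

variable {K M : Type} [Field K] [NumberField K] [Field M] [NumberField M]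

theorem simple_transfer (hL : BigL K M) (h : SimpleK K) :
    SumZeroSimple (M ≃ₐ[ℚ] M) (K →ₐ[ℚ] M) := by
  let i : M →ₐ[ℚ] AlgebraicClosure ℚ := IsAlgClosed.lift
  have hinj : Function.Injective i := i.toRingHom.injective
  have hinj2 : Function.Injective (fun σ : K →ₐ[ℚ] M => i.comp σ) := by
    intro σ τ h
    ext x
    exact hinj (congrArg (fun f : K →ₐ[ℚ] AlgebraicClosure ℚ => f x) h)
  have hbij : Function.Bijective (fun σ : K →ₐ[ℚ] M => i.comp σ) := by
    rw [Fintype.bijective_iff_injective_and_card]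
    refine ⟨hinj2, ?_⟩
    rw [hL.card, AlgHom.card]
  obtain ⟨e, he⟩ : ∃ e : (K →ₐ[ℚ] M) ≃ (K →ₐ[ℚ] AlgebraicClosure ℚ), ∀ σ, e σ = i.comp σ :=
    ⟨Equiv.ofBijective _ hbij, fun σ => rfl⟩
  have hr : ∀ g : AlgebraicClosure ℚ ≃ₐ[ℚ] AlgebraicClosure ℚ, ∃ g' : M ≃ₐ[ℚ] M,
      ∀ σ : K →ₐ[ℚ] M, e (g' • σ) = g • e σ := by
    intro g
    let alg : Algebra M (AlgebraicClosure ℚ) := i.toRingHom.toAlgebra
    have htow : IsScalarTower ℚ M (AlgebraicClosure ℚ) := IsScalarTower.of_algHom i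
    have hn : Normal ℚ M := hL.gal.to_normal
    have hγ : ∀ x : M, i (g.restrictNormal M x) = g (i x) := fun x =>
      AlgEquiv.restrictNormal_commutes g M x
    refine ⟨g.restrictNormal M, fun σ => ?_⟩
    rw [he, he]
    ext x
    exact hγ (σ x)
  intro U hU hU0 hne u hu
  obtain ⟨L, hLa⟩ : ∃ L : ((K →ₐ[ℚ] AlgebraicClosure ℚ) → ZMod 2) →ₗ[ZMod 2]
      ((K →ₐ[ℚ] M) → ZMod 2), ∀ u s, L u s = u (e s) :=
    ⟨LinearMap.funLeft (ZMod 2) (ZMod 2) e, fun _ _ => rfl⟩
  have hsum : ∀ u : (K →ₐ[ℚ] AlgebraicClosure ℚ) → ZMod 2, ∑ s, u s = ∑ s, L u s := by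
    intro u
    exact (Fintype.sum_equiv e (fun s => L u s) (fun s => u s) fun s => hLa u s).symm
  have hback : ∀ u : (K →ₐ[ℚ] M) → ZMod 2, L (fun s => u (e.symm s)) = u := by
    intro u
    funext s
    rw [hLa, Equiv.symm_apply_apply]
  have key := h (U.comap L) (by
    intro g u hu
    obtain ⟨g', hg'⟩ := hr g
    rw [Submodule.mem_comap] at hu ⊢
    have h1 := hU g' _ hu
    have h2 : (fun s => L u (g' • s)) = L (fun s => u (g • s)) := by
      funext s
      rw [hLa, hLa, hg']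
    rwa [h2] at h1) (by
    intro u hu
    rw [hsum]
    exact hU0 _ (Submodule.mem_comap.1 hu)) (by
    intro hbot
    apply hne
    rw [eq_bot_iff]
    intro u hu
    have h1 : (fun s => u (e.symm s)) ∈ U.comap L := by
      rw [Submodule.mem_comap, hback]
      exact hu
    rw [hbot, Submodule.mem_bot] at h1
    rw [Submodule.mem_bot, ← hback u, h1, map_zero]) (fun s => u (e.symm s)) (by
    rw [hsum, hback]
    exact hu)
  rw [Submodule.mem_comap, hback] at key
  exact key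

end H90T8
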