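import Pool.Agent.H90.T8.Cb
import Pool.Agent.H90.T8.Kp
import Pool.Agent.H90.T8.Em
import Pool.Agent.H90.T8.Tr

/-!
The primes given by the density theorem (project MP_78d38b_T8, helper90).
-/

set_option autoImplicit false
set_option linter.unusedSectionVars false
open scoped Classical

open WithZero NumberField IsDedekindDomain H38RT H88T7 H88T8
open H38T1 (SC sc scu scu_surj sc_mul sc_of_ne sc_surj rep rep_ne sc_rep sc_eq_zero eo la si Pri OddP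
  LD XX XX' NS ov rp SqMod)

namespace H90T8

variable {K M : Type} [Field K] [NumberField K] [Field M] [NumberField M]

private theorem Ad_R {Φ : SC M →+ ZMod 2} {Ψ : SC ℚ →+ ZMod 2} {R : Finset (SC ℚ)}
    {Z : Finset (SC K)} (hZ : R.image (res K) ⊆ Z) (hΦ : ∀ r ∈ R, Φ (res M r) = Ψ r) {p : ℕ}
    {w : HeightOneSpectrum (𝓞 M)}
    (hb : Set.BijOn (fun σ : K →ₐ[ℚ] M => pl σ w) Set.univ (ov K {p}))
    (hz : ∀ z ∈ Z, ∀ σ : K →ₐ[ℚ] M, la (pl σ w) z = Φ (em σ z)) :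
    ∀ r ∈ R, ∀ v ∈ ov K {p}, la v (res K r) = Ψ r := by
  intro r hr v hv
  obtain ⟨σ, -, rfl⟩ := hb.surjOn hv
  rw [hz _ (hZ (Finset.mem_image_of_mem _ hr)), em_res, hΦ r hr]

theorem adm8 (hodd : Odd (Module.finrank ℚ K)) (hL : BigL K M) (hS : SimpleK K) :
    AdmE K (QKm M) (E0m K M) := by
  have hS' := simple_transfer hL hS
  have hne : Nonempty (K →ₐ[ℚ] M) := by
    rw [← Fintype.card_pos_iff, hL.card]
    exact hodd.pos
  obtain ⟨σ₀⟩ := hne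
  have hcE : ∀ w : SC K, nm K w = 0 → w ∉ E0m K M → ∀ (e : ZMod 2) (R : Finset (SC ℚ))
      (Ψ : SC ℚ →+ ZMod 2), (∀ d ∈ QKm M, Ψ d = 0) →
      {p : ℕ | Tot K p ∧ (∀ r ∈ R, ∀ v ∈ ov K {p}, la v (res K r) = Ψ r) ∧
        ∃ v ∈ ov K {p}, la v w = e}.Infinite := by
    intro w hw hwE e R Ψ hΨ
    obtain ⟨Φ, hΦ, hΦe⟩ := ext1 hΨ (y := em σ₀ w)
      (fun r hr => hwE (E0_of_inv hodd hL hw hr)) e
    refine (cheb_tot hodd hL Φ (insert w (R.image (res K)))).mono ?_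
    rintro p ⟨hp, w', -, hb, hz⟩
    refine ⟨hp, Ad_R (Finset.subset_insert _ _) (fun r _ => hΦ r) hb hz, pl σ₀ w',
      hb.mapsTo (Set.mem_univ _), ?_⟩
    rw [hz _ (Finset.mem_insert_self _ _), hΦe]
  refine { cR := ?_, cA := ?_, cB := ?_, cE := hcE }
  · intro R Ψ hΨ
    obtain ⟨Φ, hΦ⟩ := ext0 hΨ
    refine (cheb_tot hodd hL Φ (R.image (res K))).mono ?_
    rintro p ⟨hp, w', -, hb, hz⟩
    exact ⟨hp, Ad_R (Finset.Subset.refl _) (fun r _ => hΦ r) hb hz⟩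
  · intro w hw hwE R Ψ hΨ
    exact hcE w hw hwE 1 R Ψ hΨ
  · intro X hfin hnm hE hc R Ψ hΨ
    obtain ⟨Φ, hΦ, hΦu⟩ := exists_kap hodd hL hS' X hfin hnm hE hc R hΨ
    refine (cheb_tot hodd hL Φ (hfin.toFinset ∪ R.image (res K))).mono ?_
    rintro p ⟨hp, w', -, hb, hz⟩
    refine ⟨hp, Ad_R Finset.subset_union_right hΦ hb hz, ?_⟩
    intro f hf
    have hsum : ∑ σ : K →ₐ[ℚ] M, f (pl σ w') = 0 := by
      rw [← hf, ← finsum_mem_eq_of_bijOn (fun σ : K →ₐ[ℚ] M => pl σ w') (f := fun σ => f (pl σ w'))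
        (g := f) hb (fun σ _ => rfl), finsum_mem_univ, finsum_eq_sum_of_fintype]
    obtain ⟨x, hx, hxu⟩ := hΦu (fun σ => f (pl σ w')) hsum
    refine ⟨x, hx, ?_⟩
    intro v hv
    obtain ⟨σ, -, rfl⟩ := hb.surjOn hv
    change la (pl σ w') x = f (pl σ w')
    rw [hz x (Finset.mem_union_left _ (hfin.mem_toFinset.2 hx)), hxu]

end H90T8
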