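import Mathlib

/-!
Counting lemma for the project MP_78d38b_T8 (helper90): a functional on a space `V` of square classes such that the maps
`x ↦ (κ (f x s))_s` are onto the vectors with sum zero.
-/

set_option autoImplicit false
set_option linter.unusedSectionVars false
open scoped Classical

namespace H90T8

/-- The vectors with sum zero are a simple module: there are no stable subspaces between zero and
all vectors with sum zero. -/
def SumZeroSimple (G H : Type*) [Group G] [MulAction G H] [Fintype H] : Prop :=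
  ∀ U : Submodule (ZMod 2) (H → ZMod 2), (∀ g : G, ∀ u ∈ U, (fun s => u (g • s)) ∈ U) →
    (∀ u ∈ U, ∑ s, u s = 0) → U ≠ ⊥ → ∀ u : H → ZMod 2, ∑ s, u s = 0 → u ∈ U

lemma card_two (M : Type*) [AddCommGroup M] [Module (ZMod 2) M] [Module.Finite (ZMod 2) M] :
    Nat.card M = 2 ^ Module.finrank (ZMod 2) M := by
  rw [Module.natCard_eq_pow_finrank (K := ZMod 2) (V := M), Nat.card_zmod]

section Count

variable {V : Type*} [AddCommGroup V] [Module (ZMod 2) V] [Finite V]

instance : Finite (Module.Dual (ZMod 2) V) :=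
  Finite.of_injective (fun κ : Module.Dual (ZMod 2) V => (κ : V → ZMod 2)) DFunLike.coe_injective

lemma card_ann (Y : Submodule (ZMod 2) V) :
    Nat.card Y.dualAnnihilator * Nat.card Y = Nat.card V := by
  have : Module.Finite (ZMod 2) V := inferInstance
  have h1 := Subspace.finrank_add_finrank_dualAnnihilator_eq Y
  rw [card_two Y.dualAnnihilator, card_two Y, card_two V, ← pow_add]
  congr 1
  omega

lemma card_sup {R Y : Submodule (ZMod 2) V} (h : R ⊓ Y = ⊥) :
    Nat.card (R ⊔ Y : Submodule (ZMod 2) V) = Nat.card R * Nat.card Y := by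
  have h1 := Submodule.finrank_sup_add_finrank_inf_eq R Y
  rw [h, finrank_bot, add_zero] at h1
  rw [card_two R, card_two Y, card_two (R ⊔ Y : Submodule (ZMod 2) V), ← pow_add, h1]

/-- The number of the functionals which agree with `Ψ` on `R` and vanish on `Y`. -/
lemma card_bad {R Y : Submodule (ZMod 2) V} (h : R ⊓ Y = ⊥) (Ψ : Module.Dual (ZMod 2) V) :
    ({κ : Module.Dual (ZMod 2) V | κ - Ψ ∈ R.dualAnnihilator ∧ κ ∈ Y.dualAnnihilator}).ncard *
      Nat.card Y ≤ Nat.card R.dualAnnihilator := by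
  have hR0 : 0 < Nat.card R := Nat.card_pos
  have h1 := card_ann R
  have h2 := card_ann (R ⊔ Y)
  rw [card_sup h, ← h1] at h2
  have h3 : Nat.card (R ⊔ Y : Submodule (ZMod 2) V).dualAnnihilator * Nat.card Y =
      Nat.card R.dualAnnihilator := by
    apply Nat.eq_of_mul_eq_mul_right hR0
    rw [← h2]
    ring
  rw [← h3]
  apply Nat.mul_le_mul_right
  rcases Set.eq_empty_or_nonempty {κ : Module.Dual (ZMod 2) V | κ - Ψ ∈ R.dualAnnihilator ∧
    κ ∈ Y.dualAnnihilator} with he | ⟨κ₀, hκ₀⟩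
  · rw [he, Set.ncard_empty]
    exact Nat.zero_le _
  · have h4 : {κ : Module.Dual (ZMod 2) V | κ - Ψ ∈ R.dualAnnihilator ∧
        κ ∈ Y.dualAnnihilator} ⊆ (fun κ => κ + κ₀) '' ((R ⊔ Y).dualAnnihilator : Set _) := by
      rintro κ ⟨hκ, hκ'⟩
      refine ⟨κ - κ₀, ?_, sub_add_cancel _ _⟩
      rw [SetLike.mem_coe, Submodule.dualAnnihilator_sup_eq]
      refine ⟨?_, Submodule.sub_mem _ hκ' hκ₀.2⟩
      have := Submodule.sub_mem _ hκ hκ₀.1
      rwa [sub_sub_sub_cancel_right] at this
    refine (Set.ncard_le_ncard h4 (Set.toFinite _)).trans ((Set.ncard_image_le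
      (Set.toFinite _)).trans ?_)
    exact le_of_eq rfl

lemma card_coset {R : Submodule (ZMod 2) V} (Ψ : Module.Dual (ZMod 2) V) :
    ({κ : Module.Dual (ZMod 2) V | κ - Ψ ∈ R.dualAnnihilator}).ncard =
      Nat.card R.dualAnnihilator := by
  have : {κ : Module.Dual (ZMod 2) V | κ - Ψ ∈ R.dualAnnihilator} =
      (fun κ => κ + Ψ) '' (R.dualAnnihilator : Set _) := by
    ext κ
    constructor
    · intro h
      exact ⟨κ - Ψ, h, sub_add_cancel _ _⟩
    · rintro ⟨κ', h, rfl⟩
      simpa using h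
  rw [this, Set.ncard_image_of_injective _ (add_left_injective Ψ)]
  rfl

end Count

section Sum

variable {H : Type*} [Fintype H]

/-- The vectors with sum zero. -/
def SZ (H : Type*) [Fintype H] : Submodule (ZMod 2) (H → ZMod 2) :=
  LinearMap.ker (∑ s, LinearMap.proj s : (H → ZMod 2) →ₗ[ZMod 2] ZMod 2)

lemma mem_SZ {u : H → ZMod 2} : u ∈ SZ H ↔ ∑ s, u s = 0 := by
  unfold SZ
  rw [LinearMap.mem_ker, LinearMap.sum_apply]
  rfl

lemma card_SZ [Nonempty H] : Nat.card (SZ H) * 2 = 2 ^ Fintype.card H := by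
  have h1 := LinearMap.finrank_range_add_finrank_ker
    (∑ s, LinearMap.proj s : (H → ZMod 2) →ₗ[ZMod 2] ZMod 2)
  have h2 : LinearMap.range (∑ s, LinearMap.proj s : (H → ZMod 2) →ₗ[ZMod 2] ZMod 2) = ⊤ := by
    rw [LinearMap.range_eq_top]
    intro z
    obtain ⟨s₀⟩ := ‹Nonempty H›
    refine ⟨Pi.single s₀ z, ?_⟩
    rw [LinearMap.sum_apply]
    simp [Finset.sum_pi_single']
  rw [h2, finrank_top, Module.finrank_self, Module.finrank_fintype_fun_eq_card] at h1
  rw [card_two (SZ H), ← pow_succ]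
  congr 1
  unfold SZ
  omega

/-- A vector orthogonal to all vectors with sum zero is constant. -/
lemma const_of_orth {z : H → ZMod 2} (h : ∀ w ∈ SZ H, ∑ s, w s * z s = 0) (s t : H) :
    z s = z t := by
  by_cases hst : s = t
  · rw [hst]
  have h1 := h (Pi.single s 1 + Pi.single t 1) (by
    rw [mem_SZ]
    simp only [Pi.add_apply, Finset.sum_add_distrib, Finset.sum_pi_single', Finset.mem_univ,
      if_true]
    decide)
  simp only [Pi.add_apply, add_mul, Finset.sum_add_distrib, Pi.single_apply, ite_mul, one_mul,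
    zero_mul, Finset.sum_ite_eq', Finset.mem_univ, if_true] at h1
  have h2 : z s = - z t := eq_neg_of_add_eq_zero_left h1
  rw [h2, ZMod.neg_eq_self_mod_two]

end Sum


section Main

variable {G H V X : Type*} [Group G] [MulAction G H] [Fintype H] [AddCommGroup V]
  [Module (ZMod 2) V] [DistribMulAction G V] [AddCommGroup X] [Module (ZMod 2) X]

/-- `∑_s w_s f_x(s)` -/
def ev (f : X →ₗ[ZMod 2] (H → V)) (w : H → ZMod 2) : X →ₗ[ZMod 2] V where
  toFun x := ∑ s, w s • f x s
  map_add' x y := by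
    simp only [map_add, Pi.add_apply, smul_add, Finset.sum_add_distrib]
  map_smul' c x := by
    simp only [map_smul, Pi.smul_apply, RingHom.id_apply, Finset.smul_sum]
    exact Finset.sum_congr rfl fun s _ => smul_comm _ _ _

lemma ev_apply (f : X →ₗ[ZMod 2] (H → V)) (w : H → ZMod 2) (x : X) :
    ev f w x = ∑ s, w s • f x s := rfl

lemma smul_smul2 (g : G) (c : ZMod 2) (v : V) : g • (c • v) = c • (g • v) := by
  have h : c = 0 ∨ c = 1 := by
    revert c
    decide
  rcases h with rfl | rfl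
  · rw [zero_smul, zero_smul, smul_zero]
  · rw [one_smul, one_smul]

/-- The simplicity: if `∑_s w_s f_x(s)` is fixed by the group for one nonzero `w` with sum zero, then
`x = 0`. -/
lemma ev_inj (hodd : Odd (Fintype.card H)) (hS : SumZeroSimple G H)
    (f : X →ₗ[ZMod 2] (H → V)) (hf : ∀ x (g : G) s, f x (g • s) = g • f x s)
    (h0 : ∀ x, ∑ s, f x s = 0) (hinj : ∀ x, (∀ s, f x s = 0) → x = 0)
    (htr : ∀ s t : H, ∃ g : G, g • s = t)
    {w : H → ZMod 2} (hw : w ∈ SZ H) (hw0 : w ≠ 0) {x : X}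
    (hfix : ∀ g : G, g • ev f w x = ev f w x) : x = 0 := by
  -- the annihilator of `x`
  let U : Submodule (ZMod 2) (H → ZMod 2) :=
    { carrier := {u | ∑ s, u s = 0 ∧ ev f u x = 0}
      add_mem' := by
        rintro a b ⟨ha, ha'⟩ ⟨hb, hb'⟩
        refine ⟨?_, ?_⟩
        · simp only [Pi.add_apply, Finset.sum_add_distrib, ha, hb, add_zero]
        · rw [ev_apply] at ha' hb' ⊢
          simp only [Pi.add_apply, add_smul, Finset.sum_add_distrib, ha', hb', add_zero]
      zero_mem' := by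
        refine ⟨by simp, by simp [ev_apply]⟩
      smul_mem' := by
        rintro c a ⟨ha, ha'⟩
        refine ⟨?_, ?_⟩
        · simp only [Pi.smul_apply, ← Finset.smul_sum, ha, smul_zero]
        · rw [ev_apply] at ha' ⊢
          simp only [Pi.smul_apply, smul_assoc, ← Finset.smul_sum, ha', smul_zero] }
  have key : ∀ (g : G) (u : H → ZMod 2), ev f (fun s => u (g⁻¹ • s)) x = g • ev f u x := by
    intro g u
    rw [ev_apply, ev_apply, Finset.smul_sum]
    refine Fintype.sum_equiv (MulAction.toPerm g⁻¹) _ _ fun s => ?_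
    rw [smul_smul2, ← hf]
    simp [MulAction.toPerm_apply]
  have hsum : ∀ (g : G) (u : H → ZMod 2), ∑ s, u (g • s) = ∑ s, u s := fun g u =>
    Fintype.sum_equiv (MulAction.toPerm g) _ _ fun s => rfl
  have hU : ∀ g : G, ∀ u ∈ U, (fun s => u (g • s)) ∈ U := by
    rintro g u ⟨h1, h2⟩
    refine ⟨(hsum g u).trans h1, ?_⟩
    have := key g⁻¹ u
    rw [inv_inv] at this
    rw [this, h2, smul_zero]
  -- it is not zero
  have hne : U ≠ ⊥ := by
    intro hbot
    have h1 : ∀ g : G, ∀ s, w (g⁻¹ • s) = w s := by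
      intro g
      have h2 : (fun s => w (g⁻¹ • s)) - w ∈ U := by
        refine ⟨?_, ?_⟩
        · simp only [Pi.sub_apply, Finset.sum_sub_distrib]
          rw [hsum g⁻¹ w, mem_SZ.1 hw, sub_zero]
        · have h3 : ev f ((fun s => w (g⁻¹ • s)) - w) x =
              ev f (fun s => w (g⁻¹ • s)) x - ev f w x := by
            simp only [ev_apply, Pi.sub_apply, sub_smul, Finset.sum_sub_distrib]
          rw [h3, key, hfix, sub_self]
      rw [hbot, Submodule.mem_bot] at h2
      intro s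
      exact sub_eq_zero.1 (congrFun h2 s)
    have h4 : ∀ s t, w s = w t := by
      intro s t
      obtain ⟨g, hg⟩ := htr s t
      have := h1 g t
      rw [← hg, inv_smul_smul] at this
      rw [this, hg]
    have h5 : ∀ s, w s = 0 := by
      intro s
      have h6 := mem_SZ.1 hw
      rw [Finset.sum_congr rfl fun t _ => h4 t s, Finset.sum_const, Finset.card_univ,
        nsmul_eq_mul, (ZMod.natCast_eq_one_iff_odd).2 hodd, one_mul] at h6
      exact h6
    exact hw0 (funext h5)
  have hall := hS U hU (fun u hu => hu.1) hne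
  -- all values are equal
  have heq : ∀ s t, f x s = f x t := by
    intro s t
    by_cases hst : s = t
    · rw [hst]
    have h1 := (hall (Pi.single s 1 + Pi.single t 1) (by
      simp only [Pi.add_apply, Finset.sum_add_distrib, Finset.sum_pi_single', Finset.mem_univ,
        if_true]
      decide)).2
    rw [ev_apply] at h1
    simp only [Pi.add_apply, add_smul, Finset.sum_add_distrib, Pi.single_apply, ite_smul,
      one_smul, zero_smul, Finset.sum_ite_eq', Finset.mem_univ, if_true] at h1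
    have h2 : f x s = - f x t := eq_neg_of_add_eq_zero_left h1
    have h3 : f x t + f x t = 0 := by
      rw [← two_nsmul, ← Nat.cast_smul_eq_nsmul (ZMod 2)]
      have : ((2 : ℕ) : ZMod 2) = 0 := by decide
      rw [this, zero_smul]
    rw [h2, eq_comm]
    exact eq_neg_of_add_eq_zero_left h3
  apply hinj
  intro s
  have h6 := h0 x
  rw [Finset.sum_congr rfl fun t _ => heq t s, Finset.sum_const, Finset.card_univ,
    ← Nat.cast_smul_eq_nsmul (ZMod 2), (ZMod.natCast_eq_one_iff_odd).2 hodd, one_smul] at h6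
  exact h6


/-- The union bound. -/
lemma count_core {V : Type*} [AddCommGroup V] [Module (ZMod 2) V] [Finite V] {ι : Type*}
    [Fintype ι] (R : Submodule (ZMod 2) V) (Ψ : Module.Dual (ZMod 2) V)
    (Y : ι → Submodule (ZMod 2) V) (hd : ∀ i, R ⊓ Y i = ⊥)
    (hc : ∀ i, Fintype.card ι < Nat.card (Y i)) :
    ∃ κ : Module.Dual (ZMod 2) V, κ - Ψ ∈ R.dualAnnihilator ∧
      ∀ i, κ ∉ (Y i).dualAnnihilator := by
  by_contra hcon
  push Not at hcon
  have hsub : {κ : Module.Dual (ZMod 2) V | κ - Ψ ∈ R.dualAnnihilator} ⊆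
      ⋃ i ∈ (Finset.univ : Finset ι), {κ : Module.Dual (ZMod 2) V | κ - Ψ ∈ R.dualAnnihilator ∧
        κ ∈ (Y i).dualAnnihilator} := by
    intro κ hκ
    obtain ⟨i, hi⟩ := hcon κ hκ
    exact Set.mem_biUnion (Finset.mem_coe.2 (Finset.mem_univ i)) ⟨hκ, hi⟩
  have h1 := Set.ncard_le_ncard hsub (Set.toFinite _)
  have h2 := Finset.set_ncard_biUnion_le (Finset.univ : Finset ι)
    (fun i => {κ : Module.Dual (ZMod 2) V | κ - Ψ ∈ R.dualAnnihilator ∧
        κ ∈ (Y i).dualAnnihilator})
  rw [card_coset] at h1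
  have hA : 0 < Nat.card R.dualAnnihilator := Nat.card_pos
  have h3 : ∀ i, (Fintype.card ι + 1) * ({κ : Module.Dual (ZMod 2) V |
      κ - Ψ ∈ R.dualAnnihilator ∧ κ ∈ (Y i).dualAnnihilator}).ncard ≤
        Nat.card R.dualAnnihilator := by
    intro i
    refine le_trans ?_ (card_bad (hd i) Ψ)
    rw [mul_comm]
    exact Nat.mul_le_mul_left _ (hc i)
  have h4 : (Fintype.card ι + 1) * ∑ i : ι, ({κ : Module.Dual (ZMod 2) V |
      κ - Ψ ∈ R.dualAnnihilator ∧ κ ∈ (Y i).dualAnnihilator}).ncard ≤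
        Fintype.card ι * Nat.card R.dualAnnihilator := by
    rw [Finset.mul_sum]
    refine (Finset.sum_le_sum fun i _ => h3 i).trans ?_
    rw [Finset.sum_const, Finset.card_univ, smul_eq_mul]
  have h5 := Nat.mul_le_mul_left (Fintype.card ι + 1) (h1.trans h2)
  have h6 := h5.trans h4
  rw [add_mul, one_mul] at h6
  omega


/-- The functional of the counting lemma. -/
lemma exists_kappa_ne [Finite X] (hodd : Odd (Fintype.card H)) (hS : SumZeroSimple G H)
    (htr : ∀ s t : H, ∃ g : G, g • s = t)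
    (f : X →ₗ[ZMod 2] (H → V)) (hf : ∀ x (g : G) s, f x (g • s) = g • f x s)
    (h0 : ∀ x, ∑ s, f x s = 0) (hinj : ∀ x, (∀ s, f x s = 0) → x = 0)
    (hX : 2 ^ (Fintype.card H - 1) ≤ Nat.card X)
    (R : Submodule (ZMod 2) V) [Finite R] (hR : ∀ r ∈ R, ∀ g : G, g • r = r)
    (Ψ : Module.Dual (ZMod 2) V) :
    ∃ κ : Module.Dual (ZMod 2) V, (∀ r ∈ R, κ r = Ψ r) ∧
      ∀ w ∈ SZ H, w ≠ 0 → ∃ x, κ (ev f w x) ≠ 0 := by
  have hne : Nonempty H := by
    rw [← Fintype.card_pos_iff]
    exact hodd.pos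
  obtain ⟨V₀, hV₀⟩ : ∃ V₀ : Submodule (ZMod 2) V, V₀ = R ⊔ Submodule.span (ZMod 2)
    (Set.range (fun p : X × H => f p.1 p.2)) := ⟨_, rfl⟩
  have hRV : R ≤ V₀ := by
    rw [hV₀]
    exact le_sup_left
  have hfV : ∀ x s, f x s ∈ V₀ := by
    intro x s
    rw [hV₀]
    exact Submodule.mem_sup_right (Submodule.subset_span ⟨(x, s), rfl⟩)
  have hfin : Finite V₀ := by
    have h1 : (R : Submodule (ZMod 2) V).FG := by
      have : Module.Finite (ZMod 2) R := Module.Finite.of_finite
      exact Module.Finite.iff_fg.1 this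
    have h2 : (Submodule.span (ZMod 2) (Set.range (fun p : X × H => f p.1 p.2))).FG :=
      Submodule.fg_span (Set.toFinite _)
    have h3 : V₀.FG := by
      rw [hV₀]
      exact h1.sup h2
    have : Module.Finite (ZMod 2) V₀ := Module.Finite.iff_fg.2 h3
    exact Module.finite_of_finite (ZMod 2)
  have hev : ∀ w x, ev f w x ∈ V₀ := by
    intro w x
    rw [ev_apply]
    exact Submodule.sum_mem _ fun s _ => Submodule.smul_mem _ _ (hfV x s)
  -- the subspaces
  let ι := {w : SZ H // w ≠ 0}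
  have hι : Fintype.card ι < Nat.card X := by
    have h1 : Fintype.card ι + 1 = Nat.card (SZ H) := by
      rw [Nat.card_eq_fintype_card, Fintype.card_subtype_compl, Fintype.card_subtype_eq]
      have : 0 < Fintype.card (SZ H) := Fintype.card_pos
      omega
    have h2 := card_SZ (H := H)
    have h3 : 2 ^ Fintype.card H = 2 ^ (Fintype.card H - 1) * 2 := by
      rw [← pow_succ]
      congr 1
      have := hodd.pos
      omega
    rw [h3] at h2
    have h4 : Nat.card (SZ H) = 2 ^ (Fintype.card H - 1) := Nat.eq_of_mul_eq_mul_right two_pos h2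
    omega
  let e : ∀ w : SZ H, X →ₗ[ZMod 2] V₀ := fun w => LinearMap.codRestrict V₀ (ev f w) (hev w)
  have heinj : ∀ w : SZ H, w ≠ 0 → Function.Injective (e w) := by
    intro w hw
    rw [← LinearMap.ker_eq_bot, LinearMap.ker_eq_bot']
    intro x hx
    have h1 : ev f w x = 0 := congrArg Subtype.val hx
    refine ev_inj hodd hS f hf h0 hinj htr w.2 (fun h => hw (Subtype.ext h)) (fun g => ?_)
    rw [h1, smul_zero]
  obtain ⟨κ₀, h1, h2⟩ := count_core (ι := ι) (R.comap V₀.subtype) (Ψ ∘ₗ V₀.subtype)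
    (fun w => LinearMap.range (e w.1)) (by
      rintro ⟨w, hw⟩
      rw [eq_bot_iff]
      rintro y ⟨hy, x, rfl⟩
      have h3 : ev f w x ∈ R := hy
      have h4 : x = 0 := ev_inj hodd hS f hf h0 hinj htr w.2 (fun h => hw (Subtype.ext h))
        (fun g => hR _ h3 g)
      rw [h4, map_zero]
      exact Submodule.zero_mem _) (by
      rintro ⟨w, hw⟩
      have h3 : Nat.card (LinearMap.range (e w)) = Nat.card X :=
        Nat.card_congr (LinearEquiv.ofInjective (e w) (heinj w hw)).symm.toEquiv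
      rw [h3]
      exact hι)
  obtain ⟨κ, hκ⟩ := κ₀.exists_extend
  have hκ' : ∀ v : V₀, κ (v : V) = κ₀ v := fun v => LinearMap.congr_fun hκ v
  refine ⟨κ, ?_, ?_⟩
  · intro r hr
    have h3 := (Submodule.mem_dualAnnihilator _).1 h1 ⟨r, hRV hr⟩ hr
    rw [LinearMap.sub_apply, sub_eq_zero, ← hκ'] at h3
    exact h3
  · intro w hw hw0
    have h3 := h2 ⟨⟨w, hw⟩, fun h => hw0 (congrArg Subtype.val h)⟩
    rw [Submodule.mem_dualAnnihilator] at h3
    push Not at h3
    obtain ⟨y, ⟨x, rfl⟩, hy⟩ := h3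
    refine ⟨x, ?_⟩
    rw [← hκ'] at hy
    exact hy

/-- The counting lemma: the maps `x ↦ (κ (f x s))_s` are onto the vectors with sum zero. -/
theorem exists_kappa [Finite X] (hodd : Odd (Fintype.card H)) (hS : SumZeroSimple G H)
    (htr : ∀ s t : H, ∃ g : G, g • s = t)
    (f : X →ₗ[ZMod 2] (H → V)) (hf : ∀ x (g : G) s, f x (g • s) = g • f x s)
    (h0 : ∀ x, ∑ s, f x s = 0) (hinj : ∀ x, (∀ s, f x s = 0) → x = 0)
    (hX : 2 ^ (Fintype.card H - 1) ≤ Nat.card X)
    (R : Submodule (ZMod 2) V) [Finite R] (hR : ∀ r ∈ R, ∀ g : G, g • r = r)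
    (Ψ : Module.Dual (ZMod 2) V) :
    ∃ κ : Module.Dual (ZMod 2) V, (∀ r ∈ R, κ r = Ψ r) ∧
      ∀ u : H → ZMod 2, ∑ s, u s = 0 → ∃ x, ∀ s, κ (f x s) = u s := by
  obtain ⟨κ, h1, h2⟩ := exists_kappa_ne hodd hS htr f hf h0 hinj hX R hR Ψ
  refine ⟨κ, h1, ?_⟩
  intro u hu
  -- the transposed map
  let B : SZ H →ₗ[ZMod 2] Module.Dual (ZMod 2) X :=
    { toFun := fun w => κ ∘ₗ ev f w
      map_add' := by
        intro a b
        ext x
        simp [ev_apply, add_smul, Finset.sum_add_distrib]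
      map_smul' := by
        intro c a
        ext x
        simp [ev_apply, Finset.mul_sum, mul_assoc] }
  have hB : Function.Injective B := by
    rw [← LinearMap.ker_eq_bot, LinearMap.ker_eq_bot']
    intro w hw
    by_contra hne
    obtain ⟨x, hx⟩ := h2 w w.2 (fun h => hne (Subtype.ext h))
    exact hx (LinearMap.congr_fun hw x)
  let lam : Module.Dual (ZMod 2) (SZ H) :=
    { toFun := fun w => ∑ s, (w : H → ZMod 2) s * u s
      map_add' := by
        intro a b
        simp [add_mul, Finset.sum_add_distrib]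
      map_smul' := by
        intro c a
        simp [Finset.mul_sum, mul_assoc] }
  obtain ⟨Λ, hΛ⟩ := LinearMap.dualMap_surjective_of_injective hB lam
  have hfd : Module.Finite (ZMod 2) X := Module.Finite.of_finite
  obtain ⟨x, hx⟩ := (Module.evalEquiv (ZMod 2) X).surjective Λ
  have h3 : ∀ w : SZ H, κ (ev f w x) = ∑ s, (w : H → ZMod 2) s * u s := by
    intro w
    have h4 := LinearMap.congr_fun hΛ w
    rw [LinearMap.dualMap_apply, ← hx] at h4
    exact h4
  have h5 : ∀ w ∈ SZ H, ∑ s, w s * (κ (f x s) - u s) = 0 := by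
    intro w hw
    have h6 := h3 ⟨w, hw⟩
    rw [ev_apply, map_sum] at h6
    simp only [map_smul, smul_eq_mul] at h6
    simp only [mul_sub, Finset.sum_sub_distrib]
    rw [h6, sub_self]
  have h7 := const_of_orth h5
  have h8 : ∀ s, κ (f x s) - u s = 0 := by
    intro s
    have h9 : ∑ t, (κ (f x t) - u t) = 0 := by
      rw [Finset.sum_sub_distrib, hu, ← map_sum, h0, map_zero, sub_zero]
    rw [Finset.sum_congr rfl fun t _ => h7 t s, Finset.sum_const, Finset.card_univ,
      nsmul_eq_mul, (ZMod.natCast_eq_one_iff_odd).2 hodd, one_mul] at h9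
    exact h9
  exact ⟨x, fun s => sub_eq_zero.1 (h8 s)⟩

end Main

end H90T8
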