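import Pool.Agent.H90.T8.Ct

/-!
ROW Sa (project MP_78d38b_T8, about 90 lines; Mathlib and Ct.lean only): all even permutations are realised.

PROOF. Let `U` be a stable subspace with sum zero, `0 ≠ u ∈ U`. `u` is not constant (if `u = 1` everywhere the sum is the cardinality,
`= 1` in `ZMod 2` as it is odd), so there are `i`, `j` with `u i = 1`, `u j = 0` (`u` is not zero). The cardinality is odd and at least two, so there
is `k ≠ i, j`. Let `τ` be the 3-cycle `i ↦ j ↦ k ↦ i` (`Equiv.swap i k * Equiv.swap i j` or so: a product of two transpositions, sign one: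
`Equiv.Perm.mem_alternatingGroup`, `Equiv.Perm.sign_mul`, `sign_swap`), realised by `g`. `w = (u ∘ g) + u ∈ U` satisfies `w s = u (τ s) + u s`, so `w s = 0` for
`s ≠ i, j, k`, `w i = 1`, `w j = u k`, `w k = u i + u k = 1 + u k`. So `w = δ_i + δ_j` or `w = δ_i + δ_k` (`δ_a = Pi.single a 1`): there are `a ≠ b` with
`δ_a + δ_b ∈ U`.
Claim: `δ_b + δ_c ∈ U` for all `c ≠ b`. For `c = a` clear. For `c ≠ a, b` let `τ` be a 3-cycle of `a, b, c` with `τ c = b`, `τ b = a`, `τ a = c` (so that
`(δ_a + δ_b) ∘ τ = δ_b + δ_c`: the value at `s` is one iff `τ s ∈ {a, b}` iff `s ∈ {b, c}`).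
Finally let `v` have sum zero: `v = ∑_{s} v s • δ_s = ∑_s v s • (δ_s + δ_b)` because `(∑ v s) • δ_b = 0`; every `δ_s + δ_b` is in `U` (`s = b`: `δ_b + δ_b = 0`).
-/

set_option autoImplicit false
set_option linter.unusedSectionVars false
open scoped Classical

namespace H90T8

private lemma Sa_cyc {G H : Type*} [Group G] [MulAction G H] [Fintype H]
    (h : ∀ τ ∈ alternatingGroup H, ∃ g : G, ∀ s : H, g • s = τ s) {a b c : H} (hab : a ≠ b) (hbc : b ≠ c)
    (hac : a ≠ c) : ∃ g : G, g • a = b ∧ g • b = c ∧ g • c = a ∧ ∀ s, s ≠ a → s ≠ b → s ≠ c → g • s = s := by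
  obtain ⟨g, hg⟩ := h (Equiv.swap a b * Equiv.swap b c) (by
    rw [Equiv.Perm.mem_alternatingGroup, Equiv.Perm.sign_mul, Equiv.Perm.sign_swap hab, Equiv.Perm.sign_swap hbc]
    rfl)
  refine ⟨g, ?_, ?_, ?_, fun s h1 h2 h3 => ?_⟩
  · rw [hg, Equiv.Perm.mul_apply, Equiv.swap_apply_of_ne_of_ne hab hac, Equiv.swap_apply_left]
  · rw [hg, Equiv.Perm.mul_apply, Equiv.swap_apply_left, Equiv.swap_apply_of_ne_of_ne hac.symm hbc.symm]
  · rw [hg, Equiv.Perm.mul_apply, Equiv.swap_apply_right, Equiv.swap_apply_right]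
  · rw [hg, Equiv.Perm.mul_apply, Equiv.swap_apply_of_ne_of_ne h2 h3, Equiv.swap_apply_of_ne_of_ne h1 h2]

/-- the sum of two delta functions -/
private noncomputable def Sa_D {H : Type*} (a b : H) (s : H) : ZMod 2 :=
  (if s = a then 1 else 0) + (if s = b then 1 else 0)

private lemma Sa_D_symm {H : Type*} (a b : H) : Sa_D a b = Sa_D b a := by
  funext s
  unfold Sa_D
  exact add_comm _ _

private lemma Sa_D_self {H : Type*} (a : H) : Sa_D a a = 0 := by
  funext s
  unfold Sa_D
  split_ifs
  · rfl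
  · rfl

private lemma Sa_l {H : Type*} {a b : H} (h : a ≠ b) : Sa_D a b a = 1 := by
  unfold Sa_D
  rw [if_pos rfl, if_neg h, add_zero]

private lemma Sa_r {H : Type*} {a b : H} (h : a ≠ b) : Sa_D a b b = 1 := by
  unfold Sa_D
  rw [if_pos rfl, if_neg h.symm, zero_add]

private lemma Sa_o {H : Type*} {a b s : H} (h1 : s ≠ a) (h2 : s ≠ b) : Sa_D a b s = 0 := by
  unfold Sa_D
  rw [if_neg h1, if_neg h2, add_zero]

private lemma Sa_cases (a : ZMod 2) : a = 0 ∨ a = 1 := by
  revert a
  decide

theorem simple_alt {G H : Type*} [Group G] [MulAction G H] [Fintype H]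
    (hodd : Odd (Fintype.card H))
    (h : ∀ τ ∈ alternatingGroup H, ∃ g : G, ∀ s : H, g • s = τ s) : SumZeroSimple G H := by
  intro U hU hsum hne
  obtain ⟨u, hu, hu0⟩ := Submodule.exists_mem_ne_zero_of_ne_bot hne
  obtain ⟨i, hi⟩ : ∃ i, u i = 1 := by
    by_contra hcon
    apply hu0
    funext s
    rcases Sa_cases (u s) with h1 | h1
    · exact h1
    · exact absurd ⟨s, h1⟩ hcon
  obtain ⟨j, hj⟩ : ∃ j, u j = 0 := by
    by_contra hcon
    have h1 : ∀ s, u s = 1 := by
      intro s
      rcases Sa_cases (u s) with h1 | h1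
      · exact absurd ⟨s, h1⟩ hcon
      · exact h1
    have h2 := hsum u hu
    rw [Finset.sum_congr rfl fun s _ => h1 s, Finset.sum_const, Finset.card_univ, nsmul_eq_mul, mul_one,
      (ZMod.natCast_eq_one_iff_odd).2 hodd] at h2
    exact one_ne_zero h2
  have hij : i ≠ j := by
    intro h1
    rw [h1, hj] at hi
    exact zero_ne_one hi
  obtain ⟨k, hki, hkj⟩ : ∃ k, k ≠ i ∧ k ≠ j := by
    by_contra hcon
    have h1 : (Finset.univ : Finset H) = {i, j} := by
      ext s
      rw [Finset.mem_insert, Finset.mem_singleton]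
      refine ⟨fun _ => ?_, fun _ => Finset.mem_univ _⟩
      by_contra h2
      rw [not_or] at h2
      exact hcon ⟨s, h2.1, h2.2⟩
    rw [← Finset.card_univ, h1, Finset.card_pair hij] at hodd
    exact absurd hodd (by decide)
  -- two delta functions
  obtain ⟨a, b, hab, hDab⟩ : ∃ a b : H, a ≠ b ∧ Sa_D a b ∈ U := by
    obtain ⟨g, g1, g2, g3, g4⟩ := Sa_cyc h hij hkj.symm hki.symm
    have hw : (fun s => u (g • s)) + u ∈ U := U.add_mem (hU g u hu) hu
    rcases Sa_cases (u k) with hk | hk
    · refine ⟨i, k, hki.symm, ?_⟩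
      have e1 : Sa_D i k = (fun s => u (g • s)) + u := by
        funext s
        rw [Pi.add_apply]
        by_cases hsi : s = i
        · rw [hsi, g1, hi, hj, Sa_l hki.symm, zero_add]
        · by_cases hsk : s = k
          · rw [hsk, g3, hi, hk, Sa_r hki.symm, add_zero]
          · rw [Sa_o hsi hsk]
            by_cases hsj : s = j
            · rw [hsj, g2, hk, hj, add_zero]
            · rw [g4 s hsi hsj hsk]
              exact (ZModModule.add_self (u s)).symm
      rw [e1]
      exact hw
    · refine ⟨i, j, hij, ?_⟩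
      have e1 : Sa_D i j = (fun s => u (g • s)) + u := by
        funext s
        rw [Pi.add_apply]
        by_cases hsi : s = i
        · rw [hsi, g1, hi, hj, Sa_l hij, zero_add]
        · by_cases hsj : s = j
          · rw [hsj, g2, hk, hj, Sa_r hij, add_zero]
          · rw [Sa_o hsi hsj]
            by_cases hsk : s = k
            · rw [hsk, g3, hk, hi]
              rfl
            · rw [g4 s hsi hsj hsk]
              exact (ZModModule.add_self (u s)).symm
      rw [e1]
      exact hw
  have hDb : ∀ c, c ≠ b → Sa_D b c ∈ U := by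
    intro c hcb
    by_cases hca : c = a
    · rw [hca, Sa_D_symm]
      exact hDab
    · obtain ⟨g, g1, g2, g3, g4⟩ := Sa_cyc h (Ne.symm hca) hcb hab
      have hw := hU g _ hDab
      have e1 : Sa_D b c = fun s => Sa_D a b (g • s) := by
        funext s
        by_cases hsa : s = a
        · rw [hsa, g1, Sa_o hca hcb, Sa_o hab (Ne.symm hca)]
        · by_cases hsc : s = c
          · rw [hsc, g2, Sa_r hab, Sa_r (Ne.symm hcb)]
          · by_cases hsb : s = b
            · rw [hsb, g3, Sa_l hab, Sa_l (Ne.symm hcb)]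
            · rw [g4 s hsa hsc hsb, Sa_o hsb hsc, Sa_o hsa hsb]
      rw [e1]
      exact hw
  have hall : ∀ s, Sa_D s b ∈ U := by
    intro s
    by_cases hsb : s = b
    · rw [hsb, Sa_D_self]
      exact U.zero_mem
    · rw [Sa_D_symm]
      exact hDb s hsb
  intro v hv
  have e1 : v = ∑ s, v s • Sa_D s b := by
    funext t
    rw [Finset.sum_apply]
    have e2 : ∀ s, (v s • Sa_D s b) t = (if t = s then v s else 0) + v s * (if t = b then 1 else 0) := by
      intro s
      rw [Pi.smul_apply, smul_eq_mul]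
      unfold Sa_D
      rw [mul_add]
      congr 1
      split_ifs
      · rw [mul_one]
      · rw [mul_zero]
    rw [Finset.sum_congr rfl fun s _ => e2 s, Finset.sum_add_distrib, ← Finset.sum_mul, hv, zero_mul, add_zero,
      Finset.sum_ite_eq, if_pos (Finset.mem_univ _)]
  rw [e1]
  exact U.sum_mem fun s _ => U.smul_mem _ (hall s)

end H90T8
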