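import Pool.Agent.H90.T8.Ct

/-!
The vectors with sum zero are a simple module for a transitive group on a prime number `N` of
points if two is a primitive root modulo `N` (project MP_78d38b_T8, helper90).
-/

set_option autoImplicit false
set_option linter.unusedSectionVars false
open scoped Classical

open Polynomial

namespace H90T8

section

variable {H : Type*} [Fintype H]

/-- The shift by a permutation. -/
def sh (π : Equiv.Perm H) : Module.End (ZMod 2) (H → ZMod 2) := LinearMap.funLeft (ZMod 2) (ZMod 2) π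

lemma sh_apply (π : Equiv.Perm H) (u : H → ZMod 2) (s : H) : sh π u s = u (π s) := rfl

lemma sh_pow (π : Equiv.Perm H) (i : ℕ) (u : H → ZMod 2) (s : H) :
    (sh π ^ i) u s = u ((π ^ i) s) := by
  induction i generalizing u with
  | zero => rfl
  | succ i ih =>
    rw [pow_succ, pow_succ']
    change (sh π ^ i) (sh π u) s = u (π ((π ^ i) s))
    rw [ih]
    rfl

/-- The orbit sum of a cycle of prime length. -/
lemma sum_cycle {N : ℕ} (hN : N.Prime) (hc : Fintype.card H = N) {π : Equiv.Perm H}
    (ho : orderOf π = N) (u : H → ZMod 2) (s : H) :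
    ∑ i ∈ Finset.range N, u ((π ^ i) s) = ∑ t, u t := by
  have hcyc : π.IsCycle := Equiv.Perm.isCycle_of_prime_order'' (by rw [hc]; exact hN)
    (by rw [ho, hc])
  have hsupp : π.support = Finset.univ := by
    apply Finset.eq_univ_of_card
    rw [← hcyc.orderOf, ho, hc]
  have hs : π s ≠ s := by
    rw [← Equiv.Perm.mem_support, hsupp]
    exact Finset.mem_univ _
  rw [← Fin.sum_univ_eq_sum_range (fun i => u ((π ^ i) s))]
  have hinj : Function.Injective (fun i : Fin N => (π ^ (i : ℕ)) s) := by
    intro i j hij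
    have key : ∀ i j : ℕ, i ≤ j → j < N → (π ^ i) s = (π ^ j) s → i = j := by
      intro i j hij hj h
      have h1 : (π ^ (j - i)) s = s := by
        apply (π ^ i).injective
        rw [← Equiv.Perm.mul_apply, ← pow_add, Nat.add_sub_cancel' hij, ← h]
      have h2 := (hcyc.pow_eq_one_iff).2 ⟨s, hs, h1⟩
      have h3 := orderOf_dvd_of_pow_eq_one h2
      rw [ho] at h3
      have h4 := Nat.eq_zero_of_dvd_of_lt h3 (by omega)
      omega
    apply Fin.ext
    rcases le_total (i : ℕ) (j : ℕ) with h | h
    · exact key i j h j.2 hij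
    · exact (key j i h i.2 hij.symm).symm
  have hbij : Function.Bijective (fun i : Fin N => (π ^ (i : ℕ)) s) := by
    rw [Fintype.bijective_iff_injective_and_card]
    exact ⟨hinj, by rw [Fintype.card_fin, hc]⟩
  exact Function.Bijective.sum_comp hbij u


lemma finrank_SZ {N : ℕ} (hN : 0 < N) (hc : Fintype.card H = N) :
    Module.finrank (ZMod 2) (SZ H) = N - 1 := by
  have : Nonempty H := by
    rw [← Fintype.card_pos_iff, hc]
    exact hN
  have h1 := card_SZ (H := H)
  rw [card_two (SZ H), ← pow_succ, hc] at h1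
  have h2 := Nat.pow_right_injective (le_refl 2) h1
  omega

/-- The cyclic module generated by a nonzero vector with sum zero. -/
lemma cyclic_all {N : ℕ} (hN : N.Prime) (hN2 : N ≠ 2) (hc : Fintype.card H = N)
    (h2 : orderOf (2 : ZMod N) = N - 1) {π : Equiv.Perm H} (ho : orderOf π = N)
    {U : Submodule (ZMod 2) (H → ZMod 2)} (hU : ∀ u ∈ U, sh π u ∈ U) {u : H → ZMod 2}
    (hu : u ∈ U) (hu0 : u ≠ 0) (hsum : ∑ s, u s = 0) (hUS : U ≤ SZ H) : U = SZ H := by
  have : Fact N.Prime := ⟨hN⟩
  have : Fact (Nat.Prime 2) := ⟨Nat.prime_two⟩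
  have hcop : Nat.Coprime 2 N := (Nat.coprime_primes Nat.prime_two hN).2 (Ne.symm hN2)
  have hdvd : ¬ 2 ∣ N := by
    intro h
    exact hN2 ((Nat.prime_dvd_prime_iff_eq Nat.prime_two hN).1 h).symm
  have hdeg : (cyclotomic N (ZMod 2)).natDegree = N - 1 := by
    rw [natDegree_cyclotomic, Nat.totient_prime hN]
  have hirr : Irreducible (cyclotomic N (ZMod 2)) := by
    refine ZMod.irreducible_of_dvd_cyclotomic_of_natDegree (p := 2) (n := N) hdvd dvd_rfl ?_
    rw [hdeg, ← h2, ← orderOf_units, ZMod.coe_unitOfCoprime]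
    rfl
  -- the cyclotomic polynomial kills `u`
  have hΦ : aeval (sh π) (cyclotomic N (ZMod 2)) u = 0 := by
    rw [cyclotomic_prime, map_sum, LinearMap.sum_apply]
    funext s
    rw [Finset.sum_apply]
    simp only [map_pow, aeval_X, sh_pow, Pi.zero_apply]
    rw [sum_cycle hN hc ho u s, hsum]
  -- linear independence
  have hli : LinearIndependent (ZMod 2) (fun i : Fin (N - 1) => (sh π ^ (i : ℕ)) u) := by
    rw [Fintype.linearIndependent_iff]
    intro c hcsum
    obtain ⟨P, hP⟩ : ∃ P : (ZMod 2)[X], P = ∑ i : Fin (N - 1), C (c i) * X ^ (i : ℕ) := ⟨_, rfl⟩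
    have hPu : aeval (sh π) P u = 0 := by
      rw [hP, map_sum, LinearMap.sum_apply]
      simp only [map_mul, aeval_C, map_pow, aeval_X]
      exact hcsum
    have hPdeg : P.degree < (N - 1 : ℕ) := by
      rw [hP]
      refine (degree_sum_le _ _).trans_lt ?_
      rw [Finset.sup_lt_iff (WithBot.bot_lt_coe _)]
      intro i _
      refine (degree_C_mul_X_pow_le _ _).trans_lt ?_
      exact_mod_cast i.2
    have hP0 : P = 0 := by
      by_contra hne
      have hcopP : IsCoprime (cyclotomic N (ZMod 2)) P := by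
        rw [hirr.coprime_iff_not_dvd]
        intro hd
        have h3 := degree_le_of_dvd hd hne
        rw [degree_eq_natDegree hirr.ne_zero, hdeg] at h3
        exact absurd hPdeg (not_lt.2 h3)
      obtain ⟨a, b, hab⟩ := hcopP
      apply hu0
      have h3 : aeval (sh π) (a * cyclotomic N (ZMod 2) + b * P) u = u := by
        rw [hab, map_one]
        rfl
      rw [← h3, map_add, map_mul, map_mul, LinearMap.add_apply, Module.End.mul_apply,
        Module.End.mul_apply, hΦ, hPu, map_zero, map_zero, add_zero]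
    intro i
    have h4 : P.coeff (i : ℕ) = c i := by
      rw [hP, finsetSum_coeff]
      simp only [coeff_C_mul_X_pow]
      rw [Finset.sum_eq_single i]
      · rw [if_pos rfl]
      · intro j _ hj
        rw [if_neg]
        intro h
        exact hj (Fin.ext h.symm)
      · intro h
        exact absurd (Finset.mem_univ i) h
    rw [← h4, hP0, coeff_zero]
  have hmem : ∀ i : ℕ, (sh π ^ i) u ∈ U := by
    intro i
    induction i with
    | zero => exact hu
    | succ i ih =>
      rw [pow_succ']
      exact hU _ ih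
  have hle : Submodule.span (ZMod 2) (Set.range (fun i : Fin (N - 1) => (sh π ^ (i : ℕ)) u)) ≤ U := by
    rw [Submodule.span_le]
    rintro _ ⟨i, rfl⟩
    exact hmem i
  have hfr := finrank_span_eq_card hli
  rw [Fintype.card_fin] at hfr
  have h5 : Module.finrank (ZMod 2) (SZ H) ≤ Module.finrank (ZMod 2) U := by
    rw [finrank_SZ hN.pos hc, ← hfr]
    exact Submodule.finrank_mono hle
  exact Submodule.eq_of_le_of_finrank_le hUS h5

end

/-- A transitive group on a prime number of points contains a cycle of this length. -/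
lemma exists_cycle {G H : Type*} [Group G] [MulAction G H] [Fintype H] {N : ℕ} (hN : N.Prime)
    (hc : Fintype.card H = N) (htr : ∀ s t : H, ∃ g : G, g • s = t) :
    ∃ g : G, orderOf (MulAction.toPerm g : Equiv.Perm H) = N := by
  have : Fact N.Prime := ⟨hN⟩
  let P : Subgroup (Equiv.Perm H) := (MulAction.toPermHom G H).range
  have hne : Nonempty H := by
    rw [← Fintype.card_pos_iff, hc]
    exact hN.pos
  obtain ⟨s₀⟩ := hne
  have horb : MulAction.orbit P s₀ = Set.univ := by
    ext t
    simp only [Set.mem_univ, iff_true]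
    obtain ⟨g, hg⟩ := htr s₀ t
    exact ⟨⟨MulAction.toPermHom G H g, ⟨g, rfl⟩⟩, hg⟩
  have hfin : Finite P := inferInstance
  have hcard : N ∣ Nat.card P := by
    have h1 := Nat.card_congr (MulAction.orbitProdStabilizerEquivGroup P s₀)
    rw [Nat.card_prod, Nat.card_congr (Equiv.setCongr horb), Nat.card_univ,
      Nat.card_eq_fintype_card, hc] at h1
    exact Dvd.intro _ h1
  obtain ⟨x, hx⟩ := exists_prime_orderOf_dvd_card' N hcard
  obtain ⟨g, hg⟩ := x.2
  refine ⟨g, ?_⟩
  rw [← hx, ← Subgroup.orderOf_coe, ← hg]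
  rfl

/-- The module of the vectors with sum zero is simple for a transitive group on a prime number of
points if two is a primitive root. -/
theorem simple_prime {G H : Type*} [Group G] [MulAction G H] [Fintype H] {N : ℕ} (hN : N.Prime)
    (hN2 : N ≠ 2) (hc : Fintype.card H = N) (h2 : orderOf (2 : ZMod N) = N - 1)
    (htr : ∀ s t : H, ∃ g : G, g • s = t) : SumZeroSimple G H := by
  obtain ⟨g, hg⟩ := exists_cycle hN hc htr
  intro U hU hUS hne u hu
  obtain ⟨u₀, hu₀, hu₀0⟩ := Submodule.exists_mem_ne_zero_of_ne_bot hne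
  have h := cyclic_all hN hN2 hc h2 hg (U := U) (fun v hv => hU g v hv) hu₀ hu₀0 (hUS _ hu₀)
    (fun v hv => mem_SZ.2 (hUS v hv))
  rw [h]
  exact mem_SZ.2 hu

end H90T8
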