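import Pool.Agent.H90.T8.Da
import Pool.Agent.H90.T8.Sa
import Pool.Agent.H90.T8.Sp
import Pool.Agent.H88.T7.Gd

/-!
ROW Ts (project MP_78d38b_T8, about 70 lines): the two criteria.

PROOF. `Ω = AlgebraicClosure ℚ`. `Fintype.card (K →ₐ[ℚ] Ω) = finrank ℚ K` (`AlgHom.card`). simpleK_alt: `simple_alt` (row Sa): `AltGal K` gives `g` with
`(g : Ω →ₐ Ω).comp σ = τ σ`, which is `g • σ = τ σ` by definition of the instance `actE`.
trans_closure: `Ω / ℚ` is algebraic and normal; with `Algebra K Ω` given by `σ` the embedding `τ` extends to `Ω → Ω` (`AlgHom.liftNormal`), which is bijective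
(`Algebra.IsAlgebraic.algHom_bijective`), exactly as in `trans_emb` in `Pool/Agent/H88/T7/Gd.lean`. simpleK_prime: `simple_prime` (file Sp.lean).
simpleK_three, simpleK_five: `orderOf (2 : ZMod 3) = 2`, `orderOf (2 : ZMod 5) = 4` (`orderOf_eq_iff` or `decide`-based: `orderOf_eq_prime_pow`; e.g.
`(orderOf_eq_iff (by norm_num)).2 ⟨by decide, by decide⟩` after bounding).
-/

set_option autoImplicit false
set_option linter.unusedSectionVars false
open scoped Classical

open WithZero NumberField IsDedekindDomain H38RT H88T7 H88T8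
open H38T1 (SC sc scu scu_surj sc_mul sc_of_ne sc_surj rep rep_ne sc_rep sc_eq_zero eo la si Pri OddP
  LD XX XX' NS ov rp SqMod)

namespace H90T8

variable {K : Type} [Field K] [NumberField K]

theorem Ts_card : Fintype.card (K →ₐ[ℚ] AlgebraicClosure ℚ) = Module.finrank ℚ K :=
  AlgHom.card ℚ K (AlgebraicClosure ℚ)

theorem simpleK_alt (hodd : Odd (Module.finrank ℚ K)) (h : AltGal K) : SimpleK K := by
  apply simple_alt
  · rw [Ts_card]
    exact hodd
  · intro τ hτ
    obtain ⟨g, hg⟩ := h τ hτ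
    exact ⟨g, fun s => hg s⟩

theorem trans_closure (σ τ : K →ₐ[ℚ] AlgebraicClosure ℚ) :
    ∃ g : AlgebraicClosure ℚ ≃ₐ[ℚ] AlgebraicClosure ℚ, g • σ = τ := by
  have halg : Algebra.IsAlgebraic ℚ (AlgebraicClosure ℚ) := AlgebraicClosure.isAlgebraic ℚ
  have hcl : IsAlgClosure ℚ (AlgebraicClosure ℚ) := ⟨inferInstance, halg⟩
  have hn : Normal ℚ (AlgebraicClosure ℚ) := IsAlgClosure.normal ℚ (AlgebraicClosure ℚ)
  letI : Algebra K (AlgebraicClosure ℚ) := σ.toRingHom.toAlgebra
  haveI : IsScalarTower ℚ K (AlgebraicClosure ℚ) :=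
    IsScalarTower.of_algebraMap_eq (fun x => (σ.commutes x).symm)
  let φ : AlgebraicClosure ℚ →ₐ[ℚ] AlgebraicClosure ℚ := τ.liftNormal (AlgebraicClosure ℚ)
  have hφ : ∀ x : K, φ (σ x) = τ x := fun x => τ.liftNormal_commutes (AlgebraicClosure ℚ) x
  refine ⟨AlgEquiv.ofBijective φ (Algebra.IsAlgebraic.algHom_bijective φ), ?_⟩
  ext x
  exact hφ x

theorem simpleK_prime {N : ℕ} (hN : N.Prime) (hN2 : N ≠ 2) (hc : Module.finrank ℚ K = N)
    (h2 : orderOf (2 : ZMod N) = N - 1) : SimpleK K :=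
  simple_prime hN hN2 (Ts_card.trans hc) h2 trans_closure

theorem simpleK_three (h : Module.finrank ℚ K = 3) : SimpleK K := by
  refine simpleK_prime Nat.prime_three (by norm_num) h ?_
  rw [orderOf_eq_iff (by norm_num)]
  refine ⟨by decide, ?_⟩
  intro m hm hm0
  have : m = 1 := by omega
  subst this
  decide

theorem simpleK_five (h : Module.finrank ℚ K = 5) : SimpleK K := by
  refine simpleK_prime Nat.prime_five (by norm_num) h ?_
  rw [orderOf_eq_iff (by norm_num)]
  refine ⟨by decide, ?_⟩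
  intro m hm hm0
  have : m = 1 ∨ m = 2 ∨ m = 3 := by omega
  rcases this with rfl | rfl | rfl <;> decide

end H90T8
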