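import Pool.Agent.H90.T8.Da
import Pool.Agent.H90.T8.P0
import Pool.Agent.H90.T8.P1
import Pool.Agent.H90.T8.P2

/-!
Phase 2 and the algorithm (project MP_78d38b_T8, helper90).
-/

set_option autoImplicit false
set_option linter.unusedSectionVars false
open scoped Classical

open WithZero NumberField IsDedekindDomain H38RT H88T7 H88T8
open H38T1 (SC sc scu scu_surj sc_mul sc_of_ne sc_surj rep rep_ne sc_rep sc_eq_zero eo la si Pri OddP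
  LD XX XX' NS ov rp SqMod)

namespace H90T8

variable {K : Type} [Field K] [NumberField K] {B : Finset ℕ} {QK : AddSubgroup (SC ℚ)}
  {E0 : Set (SC K)} {β : ℤ} {Qa Qb Pp Pp' : Finset ℕ}

/-- The norm-zero part as a subgroup. -/
theorem sub_XW (hD : Dat8 K B QK E0 β Qa Qb) (hS : St8 K B β Pp Pp') :
    ∃ X : AddSubgroup (SC K), (X : Set (SC K)) = XW8 K β Qa Qb Pp Pp' := by
  obtain ⟨H, hH⟩ := sub8 hD hS
  refine ⟨H ⊓ (nm K).ker, ?_⟩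
  ext c
  constructor
  · rintro ⟨h1, h2⟩
    refine ⟨?_, h2⟩
    rw [← hH]
    exact h1
  · rintro ⟨h1, h2⟩
    rw [← hH] at h1
    exact ⟨h1, h2⟩

theorem step2 (hD : Dat8 K B QK E0 β Qa Qb) (hA : AdmE K QK E0) (hS : St8 K B β Pp Pp')
    (hN : NS (PP8 K β Qa Qb Pp Pp') ⊆ {(0 : SC K)})
    (h : XX' (L8 K β Qa Qb Pp Pp') ⊆ {0, sc ((1 - 64 * β : ℤ) : K)})
    (hX : ¬ XX (L8 K β Qa Qb Pp Pp') ⊆ {0, sc (β : K)}) :
    ∃ p, St8 K B β (insert p Pp) Pp' ∧ NS (PP8 K β Qa Qb (insert p Pp) Pp') ⊆ {(0 : SC K)} ∧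
      XX' (L8 K β Qa Qb (insert p Pp) Pp') ⊆ {0, sc ((1 - 64 * β : ℤ) : K)} ∧
      (XX (L8 K β Qa Qb (insert p Pp) Pp')).ncard < (XX (L8 K β Qa Qb Pp Pp')).ncard := by
  obtain ⟨h4, hW⟩ := num2 hD hS hN h hX
  have hβ : β ≠ 0 := hD.pos.ne'
  -- a rational class
  obtain ⟨r, hr, hr0, hrb⟩ : ∃ r ∈ XX (L8 ℚ β Qa Qb Pp Pp'), r ≠ 0 ∧ r ≠ sc (β : ℚ) := by
    by_contra hcon
    push Not at hcon
    have h5 : XX (L8 ℚ β Qa Qb Pp Pp') ⊆ {0, sc (β : ℚ)} := by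
      intro r hr
      by_cases h0 : r = 0
      · exact Or.inl h0
      · exact Or.inr (hcon r hr h0)
    have h6 := Set.ncard_le_ncard h5 (Set.toFinite _)
    have h7 : ({0, sc (β : ℚ)} : Set (SC ℚ)).ncard ≤ 2 :=
      (Set.ncard_insert_le _ _).trans (by rw [Set.ncard_singleton])
    omega
  obtain ⟨Ψ, hΨ1, hΨ2, hΨ3, hΨ4⟩ := sepP8 hD hS hr hr0 hrb
  obtain ⟨X, hXW⟩ := sub_XW hD hS
  have hinf := hA.cB X (by
      rw [hXW]
      exact (fin8 hD hS).subset fun c hc => hc.1)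
    (fun x hx => by
      have h5 : x ∈ (X : Set (SC K)) := hx
      rw [hXW] at h5
      exact h5.2)
    (fun x hx hE => by
      have h5 : x ∈ (X : Set (SC K)) := hx
      rw [hXW] at h5
      exact exo_X8 hD h5.1 hE)
    (by rw [hXW]; exact hW) {sc (β : ℚ), sc ((1 - 64 * β : ℤ) : ℚ), r} Ψ hΨ1
  obtain ⟨p, ⟨hp, hR, hf⟩, hnew, -⟩ := exists_new8 (B := B) (Pp := Pp) (Pp' := Pp') hβ hinf
    (fun p hp => hp.1) 0
  have hS' := st_insP8 hS hnew (fun v hv => by rw [hR _ (by simp) v hv, hΨ2])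
    (fun v hv => by rw [hR _ (by simp) v hv, hΨ3]) hβ
  have hN' : NS (PP8 K β Qa Qb (insert p Pp) Pp') ⊆ {(0 : SC K)} := (NS_mono PP_insP8).trans hN
  have hidx := idx2 hD hS hp (fun f hf0 => by
      obtain ⟨x, hx, hx2⟩ := hf f hf0
      refine ⟨x, ?_, hx2⟩
      rw [← hXW]
      exact hx) (res_X8 hD hS hr) (fun v hv => by rw [hR _ (by simp) v hv, hΨ4])
  rw [← XX_insP8] at hidx
  have hnum := numK hD hS hN
  have hnum' := numK hD hS' hN'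
  have hcard := card_X8' hD hS h
  have hpos : 0 < (XX (L8 K β Qa Qb Pp Pp')).ncard := by
    rw [Set.ncard_pos (fin8 hD hS)]
    exact ⟨_, res_X8 hD hS hr⟩
  refine ⟨p, hS', hN', ?_, ?_⟩
  · apply eq_X8' hD hS'
    have hpn : p ∉ Pp := fun h5 => hnew.new (Finset.mem_union_left _ h5)
    rw [Finset.card_insert_of_notMem hpn, mul_add, mul_one, pow_add, mul_comm (2 ^ _) (2 ^ _),
      ← mul_assoc, hidx, ← hnum, hcard] at hnum'
    exact Nat.eq_of_mul_eq_mul_right (by positivity) hnum'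
  · have hodd := hD.odd
    have h2 : 2 ≤ 2 ^ Module.finrank ℚ K := by
      calc 2 = 2 ^ 1 := rfl
        _ ≤ _ := Nat.pow_le_pow_right two_pos hodd.pos
    have hpos' : 0 < (XX (L8 K β Qa Qb (insert p Pp) Pp')).ncard := by
      by_contra hcon
      have h5 : (XX (L8 K β Qa Qb (insert p Pp) Pp')).ncard = 0 := by omega
      rw [h5, zero_mul] at hidx
      omega
    rw [← hidx]
    nlinarith

theorem phase2 (hD : Dat8 K B QK E0 β Qa Qb) (hA : AdmE K QK E0) (n : ℕ) :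
    ∀ Pp : Finset ℕ, (XX (L8 K β Qa Qb Pp Pp')).ncard = n → St8 K B β Pp Pp' →
    NS (PP8 K β Qa Qb Pp Pp') ⊆ {(0 : SC K)} →
    XX' (L8 K β Qa Qb Pp Pp') ⊆ {0, sc ((1 - 64 * β : ℤ) : K)} →
    ∃ Qp : Finset ℕ, St8 K B β Qp Pp' ∧ XX (L8 K β Qa Qb Qp Pp') ⊆ {0, sc (β : K)} ∧
      XX' (L8 K β Qa Qb Qp Pp') ⊆ {0, sc ((1 - 64 * β : ℤ) : K)} := by
  induction n using Nat.strong_induction_on with
  | _ n ih =>
    intro Pp hn hS hN h
    by_cases hX : XX (L8 K β Qa Qb Pp Pp') ⊆ {0, sc (β : K)}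
    · exact ⟨Pp, hS, hX, h⟩
    · obtain ⟨p, h1, h2, h3, h4⟩ := step2 hD hA hS hN h hX
      rw [hn] at h4
      exact ih _ h4 (insert p Pp) rfl h1 h2 h3

/-- The algorithm. -/
theorem algo8 (hD : Dat8 K B QK E0 β Qa Qb) (hA : AdmE K QK E0) (N₀ : ℕ) :
    ∃ Pp Pp' : Finset ℕ, St8 K B β Pp Pp' ∧ (∃ p ∈ Pp', N₀ < p) ∧
      XX (L8 K β Qa Qb Pp Pp') ⊆ {0, sc (β : K)} ∧
      XX' (L8 K β Qa Qb Pp Pp') ⊆ {0, sc ((1 - 64 * β : ℤ) : K)} := by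
  obtain ⟨P0, hS0, ⟨p, hp, hpN⟩, hN0⟩ := phase0 hD hA.toAdm8 N₀
  obtain ⟨P1, h01, hS1, hX1⟩ := phase1 hD hA hS0
  have hN1 : NS (PP8 K β Qa Qb ∅ P1) ⊆ {(0 : SC K)} := by
    refine (NS_mono ?_).trans hN0
    unfold PP8
    refine Set.union_subset_union (subset_refl _) ?_
    rintro v ⟨q, hq, hv⟩
    refine ⟨q, ?_, hv⟩
    rcases hq with hq | hq
    · exact Or.inl hq
    · exact Or.inr (h01 hq)
  obtain ⟨Qp, h1, h2, h3⟩ := phase2 hD hA _ ∅ rfl hS1 hN1 hX1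
  exact ⟨Qp, P1, h1, ⟨p, h01 hp, hpN⟩, h2, h3⟩

end H90T8
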