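import Pool.Agent.H90.T8.Da
import Pool.Agent.H88.T7.Gj

/-!
ROW Pt (project MP_78d38b_T8, about 120 lines): the Legendre class at a place of residue degree one can be computed after an
embedding.

PROOF. `v = pl σ w`, `x = rep c`, `p = rp w`. `IsFb 1 w`: `y - y^p ∈ w` for all `y ∈ 𝓞 M`.
(1) `w.valuation M (σ y) < 1 ↔ v.valuation K y < 1` and `= 1 ↔ = 1` for `y ∈ K` with `v.valuation K y ≤ 1`: write `y * d = n` with `n, d ∈ 𝓞 K`, `d ∉ v.asIdeal`
(`v.exists_primeCompl_mul_eq_of_integer`), `oh σ d ∉ w.asIdeal` (`mem_pl`), and use `valuation_lt_one_iff_mem`, `valuation_eq_one_iff_notMem`.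
(2) Every element of `𝓞 M` is congruent to an integer modulo `w`: the residue field `𝓞 M ⧸ w.asIdeal` is a finite field in which `y^p = y` for all `y`, so it has at
most `p` elements (roots of `X^p - X`), and the classes of `0, ..., p - 1` are distinct (an integer `0 < m < p` is not in `w`, since `p ∈ w` and `m` is prime to `p`); see
`H93T1.Cs_card_le`, `H93T1.Cs_prime_field` in `Pool/Agent/H93/T1/Cs.lean` and `Gj_card_le` in `Pool/Agent/H88/T7/Gj.lean` (copy them, do not import new files if possible).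
(3) `sc (σ x) = em σ c` (`sc_rep`, `em_sc`). `w.valuation M (σ x) = 1` by (1). `la w (em σ c) = la w (sc (σ x)) = lam (w.valuation M) (unif w) (σ x)` (`H38T1.la_sc`, `w` odd:
`H38T1.oddP_iff`) `= if Sq (w.valuation M) (σ x) then 0 else 1` (unfold `lam`, the order is zero: see `hla` in the proof of `leg7` in `Pool/Agent/H88/T7/Gm.lean`); likewise
`la v c = if Sq (v.valuation K) x then 0 else 1`. So we have to show `Sq (v.valuation K) x ↔ Sq (w.valuation M) (σ x)`. (`Sq V x ↔ ∃ t, V (x - t^2) < 1` when `V x = 1`, see the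
definition.) `→`: `t` is `v`-integral (as in `Gm_sq` in Gm.lean), so `σ x - (σ t)^2 = σ (x - t^2)` has valuation `< 1` by (1). `←`: `w (σ x - t^2) < 1`, `t` is `w`-integral, `t = b / d'`
with `d' ∉ w`; by (2) there are integers `m, m'` with `b - m ∈ w`, `d' m' - 1 ∈ w`-like (choose `m'` congruent to an inverse of `d'`); so `t` is congruent to the integer `k = m m'`
modulo the maximal ideal of the valuation ring of `w`, `w (σ x - k^2) < 1`, and `σ x - k^2 = σ (x - k^2)`, so `v (x - k^2) < 1` by (1).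
-/

set_option autoImplicit false
set_option linter.unusedSectionVars false
open scoped Classical

open WithZero NumberField IsDedekindDomain H38RT H88T7 H88T8
open H38T1 (SC sc scu scu_surj sc_mul sc_of_ne sc_surj rep rep_ne sc_rep sc_eq_zero eo la si Pri OddP
  LD XX XX' NS ov rp SqMod)

namespace H90T8

private theorem Pt_card_le {F : Type} [Field F] [Finite F] {p : ℕ} (hp : 1 < p)
    (h : ∀ y : F, y ^ p - y = 0) : Nat.card F ≤ p := by
  have := Fintype.ofFinite F
  rw [Nat.card_eq_fintype_card]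
  obtain ⟨q, hq⟩ : ∃ q : Polynomial F, q = Polynomial.X ^ p - Polynomial.X := ⟨_, rfl⟩
  have hd : q.natDegree = p := by
    rw [hq]
    exact FiniteField.X_pow_card_sub_X_natDegree_eq F hp
  have hq0 : q ≠ 0 := by
    intro h0
    rw [h0, Polynomial.natDegree_zero] at hd
    omega
  calc Fintype.card F = (Finset.univ : Finset F).card := rfl
    _ ≤ q.roots.toFinset.card := Finset.card_le_card fun y _ => by
        rw [Multiset.mem_toFinset, Polynomial.mem_roots hq0, Polynomial.IsRoot.def, hq,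
          Polynomial.eval_sub, Polynomial.eval_pow, Polynomial.eval_X]
        exact h y
    _ ≤ q.roots.card := Multiset.toFinset_card_le _
    _ ≤ q.natDegree := Polynomial.card_roots' q
    _ = p := hd

/-- a field of characteristic `p` in which `y ^ p = y` is the prime field -/
private theorem Pt_prime_field {F : Type} [Field F] [Finite F] {p : ℕ} (hp : p.Prime)
    (hp0 : (p : F) = 0) (h : ∀ y : F, y ^ p - y = 0) :
    ∀ y : F, ∃ m : ℕ, (m : F) = y := by
  have : Fact p.Prime := ⟨hp⟩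
  have hc : CharP F p := (CharP.charP_iff_prime_eq_zero hp).2 hp0
  have hle := Pt_card_le hp.one_lt h
  have hinj : Function.Injective (ZMod.castHom (dvd_refl p) F) := (ZMod.castHom _ F).injective
  have hbij := hinj.bijective_of_nat_card_le (by rw [Nat.card_zmod]; exact hle)
  intro y
  obtain ⟨z, hz⟩ := hbij.2 y
  refine ⟨z.val, ?_⟩
  rw [← hz, ZMod.castHom_apply, ZMod.cast_eq_val]

variable {K M : Type} [Field K] [NumberField K] [Field M] [NumberField M]

/-- Every algebraic integer is congruent to an integer. -/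
private theorem Pt_int {w : HeightOneSpectrum (𝓞 M)} (hw : IsFb (1 : M ≃ₐ[ℚ] M) w) (y : 𝓞 M) :
    ∃ m : ℕ, y - (m : 𝓞 M) ∈ w.asIdeal := by
  have hmax : w.asIdeal.IsMaximal := w.isMaximal
  have hfin : Finite (𝓞 M ⧸ w.asIdeal) := Ideal.finiteQuotientOfFreeOfNeBot _ w.ne_bot
  let _ : Field (𝓞 M ⧸ w.asIdeal) := Ideal.Quotient.field _
  have hp0 : ((rp w : ℕ) : 𝓞 M ⧸ w.asIdeal) = 0 := by
    have h1 := (Ideal.Quotient.eq_zero_iff_mem (I := w.asIdeal)).2 (H38T1.rp_mem w)
    rwa [map_natCast] at h1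
  obtain ⟨m, hm⟩ := Pt_prime_field (F := 𝓞 M ⧸ w.asIdeal) (H38T1.rp_prime w) hp0 (by
    intro z
    obtain ⟨z, rfl⟩ := Ideal.Quotient.mk_surjective z
    rw [← map_pow, ← map_sub, Ideal.Quotient.eq_zero_iff_mem]
    have h1 := hw z
    rw [one_smul] at h1
    have h2 := w.asIdeal.neg_mem h1
    rwa [neg_sub] at h2) (Ideal.Quotient.mk w.asIdeal y)
  refine ⟨m, ?_⟩
  rw [← Ideal.Quotient.eq_zero_iff_mem, map_sub, map_natCast, hm, sub_self]

/-- The valuations of `σ y` and `y`. -/
private theorem Pt_val (σ : K →ₐ[ℚ] M) {w : HeightOneSpectrum (𝓞 M)} {y : K}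
    (hy : (pl σ w).valuation K y ≤ 1) : w.valuation M (σ y) ≤ 1 ∧
    (w.valuation M (σ y) < 1 ↔ (pl σ w).valuation K y < 1) := by
  obtain ⟨n, ⟨d, hd⟩, hnd⟩ := (pl σ w).exists_primeCompl_mul_eq_of_integer y hy
  have hd' : d ∉ (pl σ w).asIdeal := hd
  have hnd' : y * algebraMap (𝓞 K) K d = algebraMap (𝓞 K) K n := hnd
  have hdw : oh σ d ∉ w.asIdeal := fun h => hd' (mem_pl.2 h)
  have hVd : (pl σ w).valuation K (algebraMap (𝓞 K) K d) = 1 :=
    (pl σ w).valuation_eq_one_iff_notMem.mpr hd'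
  have hWd : w.valuation M (algebraMap (𝓞 M) M (oh σ d)) = 1 :=
    w.valuation_eq_one_iff_notMem.mpr hdw
  have htow : ∀ a : 𝓞 K, algebraMap (𝓞 M) M (oh σ a) = σ (algebraMap (𝓞 K) K a) := fun a => rfl
  have h1 : (pl σ w).valuation K y = (pl σ w).valuation K (algebraMap (𝓞 K) K n) := by
    rw [← hnd', map_mul, hVd, mul_one]
  have h2 : w.valuation M (σ y) = w.valuation M (algebraMap (𝓞 M) M (oh σ n)) := by
    rw [htow, ← hnd', map_mul, map_mul, ← htow, hWd, mul_one]
  rw [h1, h2]
  have h3 : (pl σ w).valuation K (algebraMap (𝓞 K) K n) < 1 ↔ n ∈ (pl σ w).asIdeal :=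
    (pl σ w).valuation_lt_one_iff_mem (K := K) n
  have h4 : w.valuation M (algebraMap (𝓞 M) M (oh σ n)) < 1 ↔ oh σ n ∈ w.asIdeal :=
    w.valuation_lt_one_iff_mem (K := M) (oh σ n)
  refine ⟨w.valuation_le_one _, ?_⟩
  rw [h3, h4, mem_pl]

theorem la_pl (σ : K →ₐ[ℚ] M) {w : HeightOneSpectrum (𝓞 M)} (hw : IsFb (1 : M ≃ₐ[ℚ] M) w)
    (h2 : rp w ≠ 2) {c : SC K} (hc : (pl σ w).valuation K (rep c) = 1) :
    la (pl σ w) c = la w (em σ c) := by
  obtain ⟨v, hv⟩ : ∃ v, v = pl σ w := ⟨_, rfl⟩
  obtain ⟨x, hx⟩ : ∃ x, x = rep c := ⟨_, rfl⟩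
  have hx0 : x ≠ 0 := by
    rw [hx]
    exact rep_ne c
  have hcx : c = sc x := by
    rw [hx, sc_rep]
  have hval : ∀ y : K, v.valuation K y ≤ 1 → w.valuation M (σ y) ≤ 1 ∧
      (w.valuation M (σ y) < 1 ↔ v.valuation K y < 1) := by
    intro y hy
    rw [hv] at hy ⊢
    exact Pt_val σ hy
  rw [← hv, ← hx] at hc
  rw [← hv]
  -- the class in `K`
  have hord : ord (v.valuation K) x = 0 := by
    unfold ord
    rw [hc, WithZero.log_one, neg_zero]
  have hla : la v c = if Sq (v.valuation K) x then 0 else 1 := by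
    unfold la lam
    rw [← hx, hord, neg_zero, zpow_zero, mul_one]
  -- the class in `M`
  have hwx : w.valuation M (σ x) = 1 := by
    obtain ⟨h3, h4⟩ := hval x hc.le
    refine le_antisymm h3 (not_lt.1 fun h5 => ?_)
    have h6 := h4.1 h5
    rw [hc] at h6
    exact lt_irrefl _ h6
  have hordw : ord (w.valuation M) (σ x) = 0 := by
    unfold ord
    rw [hwx, WithZero.log_one, neg_zero]
  have hσx : σ x ≠ 0 := (map_ne_zero σ).2 hx0
  have hlaw : la w (em σ c) = if Sq (w.valuation M) (σ x) then 0 else 1 := by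
    rw [hcx, em_sc σ hx0, H38T1.la_sc (H38T1.oddP_iff.2 h2) hσx]
    unfold lam
    rw [hordw, neg_zero, zpow_zero, mul_one]
  rw [hla, hlaw]
  have hiff : Sq (v.valuation K) x ↔ Sq (w.valuation M) (σ x) := by
    constructor
    · rintro ⟨t, ht⟩
      refine ⟨σ t, ?_⟩
      rw [← map_pow, ← map_sub]
      exact (hval _ ht.le).2.2 ht
    · rintro ⟨t, ht⟩
      have ht1 : w.valuation M t ≤ 1 := by
        by_contra hcon
        have h3 : 1 < w.valuation M t := not_le.1 hcon
        have h4 : 1 < w.valuation M (t ^ 2) := by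
          rw [map_pow]
          exact one_lt_pow₀ h3 two_ne_zero
        have h5 : w.valuation M (σ x - t ^ 2) = w.valuation M (t ^ 2) :=
          Valuation.map_sub_eq_of_lt_right _ (by rw [hwx]; exact h4)
        rw [h5] at ht
        exact absurd ht (not_lt.2 h4.le)
      obtain ⟨b, ⟨d, hd⟩, hbd⟩ := w.exists_primeCompl_mul_eq_of_integer t ht1
      have hd' : d ∉ w.asIdeal := hd
      have hbd' : t * algebraMap (𝓞 M) M d = algebraMap (𝓞 M) M b := hbd
      have hVd : w.valuation M (algebraMap (𝓞 M) M d) = 1 :=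
        w.valuation_eq_one_iff_notMem.mpr hd'
      have hmax : w.asIdeal.IsMaximal := w.isMaximal
      obtain ⟨d', hdd'⟩ : ∃ d' : 𝓞 M, d * d' - 1 ∈ w.asIdeal := by
        let _ : Field (𝓞 M ⧸ w.asIdeal) := Ideal.Quotient.field w.asIdeal
        have hd0 : Ideal.Quotient.mk w.asIdeal d ≠ 0 := fun h =>
          hd' (Ideal.Quotient.eq_zero_iff_mem.1 h)
        obtain ⟨d', hdd'⟩ := Ideal.Quotient.mk_surjective ((Ideal.Quotient.mk w.asIdeal d)⁻¹)
        refine ⟨d', ?_⟩
        rw [← Ideal.Quotient.eq, map_mul, map_one, hdd']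
        exact mul_inv_cancel₀ hd0
      obtain ⟨k, hk⟩ := Pt_int hw (b * d')
      -- `t` is congruent to `k`
      have htk : w.valuation M (t - (k : M)) < 1 := by
        have h3 : (t - (k : M)) * algebraMap (𝓞 M) M d =
            algebraMap (𝓞 M) M (b - (k : 𝓞 M) * d) := by
          rw [sub_mul, hbd', map_sub, map_mul, map_natCast]
        have h4 : b - (k : 𝓞 M) * d = (b * d' - (k : 𝓞 M)) * d - b * (d * d' - 1) := by ring
        have h5 : b - (k : 𝓞 M) * d ∈ w.asIdeal := by
          rw [h4]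
          exact w.asIdeal.sub_mem (w.asIdeal.mul_mem_right _ hk) (w.asIdeal.mul_mem_left _ hdd')
        have h6 : w.valuation M (algebraMap (𝓞 M) M (b - (k : 𝓞 M) * d)) < 1 :=
          (w.valuation_lt_one_iff_mem (K := M) _).2 h5
        rw [← h3, map_mul, hVd, mul_one] at h6
        exact h6
      have hk1 : w.valuation M (k : M) ≤ 1 := by
        have h3 : w.valuation M (algebraMap (𝓞 M) M (k : 𝓞 M)) ≤ 1 := w.valuation_le_one _
        rwa [map_natCast] at h3
      have hkv : v.valuation K (k : K) ≤ 1 := by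
        have h3 : v.valuation K (algebraMap (𝓞 K) K (k : 𝓞 K)) ≤ 1 := v.valuation_le_one _
        rwa [map_natCast] at h3
      refine ⟨(k : K), ?_⟩
      have h7 : v.valuation K (x - (k : K) ^ 2) ≤ 1 := by
        refine (Valuation.map_sub _ _ _).trans (max_le hc.le ?_)
        rw [map_pow]
        exact pow_le_one₀ zero_le hkv
      refine (hval _ h7).2.1 ?_
      have h8 : σ (x - (k : K) ^ 2) = (σ x - t ^ 2) + (t - (k : M)) * (t + (k : M)) := by
        rw [map_sub, map_pow, map_natCast]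
        ring
      rw [h8]
      refine lt_of_le_of_lt (Valuation.map_add _ _ _) (max_lt ht ?_)
      rw [map_mul]
      have h9 : w.valuation M (t + (k : M)) ≤ 1 :=
        (Valuation.map_add _ _ _).trans (max_le ht1 hk1)
      calc w.valuation M (t - (k : M)) * w.valuation M (t + (k : M))
          ≤ w.valuation M (t - (k : M)) * 1 := by gcongr
        _ < 1 := by rwa [mul_one]
  by_cases h : Sq (v.valuation K) x
  · rw [if_pos h, if_pos (hiff.1 h)]
  · rw [if_neg h, if_neg fun h3 => h (hiff.2 h3)]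

end H90T8
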