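import Pool.Agent.H90.T8.Da
import Pool.Agent.H90.T8.Pt
import Pool.Agent.H88.T7.Gk
import Pool.Agent.H93.T1.Ca
import Pool.Agent.H88.T7.Fb

/-!
The density theorem for totally split primes (project MP_78d38b_T8, row Cb).
-/

set_option autoImplicit false
set_option linter.unusedSectionVars false
open scoped Classical

open WithZero NumberField IsDedekindDomain H38RT H88T7 H88T8
open H38T1 (SC sc scu scu_surj sc_mul sc_of_ne sc_surj rep rep_ne sc_rep sc_eq_zero eo la si Pri OddP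
  LD XX XX' NS ov rp SqMod)

namespace H90T8

variable {K M : Type} [Field K] [NumberField K] [Field M] [NumberField M]

/-- The identity is a Frobenius element at a place of degree one. -/
theorem Cb_fb {w : HeightOneSpectrum (𝓞 M)} (hN : Ideal.absNorm w.asIdeal = rp w) :
    IsFb (1 : M ≃ₐ[ℚ] M) w := by
  intro x
  have hmax : w.asIdeal.IsMaximal := w.isMaximal
  let _ : Field (𝓞 M ⧸ w.asIdeal) := Ideal.Quotient.field w.asIdeal
  have hcard' : Nat.card (𝓞 M ⧸ w.asIdeal) = rp w := hN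
  have hfin : Finite (𝓞 M ⧸ w.asIdeal) := by
    apply Nat.finite_of_card_ne_zero
    rw [hcard']
    exact (H38T1.rp_prime w).ne_zero
  let _ : Fintype (𝓞 M ⧸ w.asIdeal) := Fintype.ofFinite _
  have hcard : Fintype.card (𝓞 M ⧸ w.asIdeal) = rp w := by
    rw [← Nat.card_eq_fintype_card]
    exact hcard'
  have h1 : (Ideal.Quotient.mk w.asIdeal x) ^ (rp w) = Ideal.Quotient.mk w.asIdeal x := by
    have h2 := FiniteField.pow_card (Ideal.Quotient.mk w.asIdeal x)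
    rwa [hcard] at h2
  rw [one_smul, ← Ideal.Quotient.eq, map_pow, h1]

/-- The bad primes. -/
theorem Cb_bad (B : Finset ℕ) (Z : Finset (SC K)) :
    {p : ℕ | p ∈ B ∨ ∃ z ∈ Z, ∃ v : HeightOneSpectrum (𝓞 K), v.valuation K (rep z) ≠ 1 ∧
      rp v = p}.Finite := by
  have h2 : (⋃ z ∈ Z, {v : HeightOneSpectrum (𝓞 K) | v.valuation K (rep z) ≠ 1}).Finite :=
    Set.Finite.biUnion Z.finite_toSet fun z _ => fin_bad (rep_ne z)
  refine (B.finite_toSet.union (h2.image rp)).subset ?_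
  rintro p (h | ⟨z, hz, v, hv, rfl⟩)
  · exact Or.inl h
  · exact Or.inr ⟨v, Set.mem_biUnion hz hv, rfl⟩

theorem cheb_tot (hodd : Odd (Module.finrank ℚ K)) (hL : BigL K M) (Φ : SC M →+ ZMod 2) (Z : Finset (SC K)) :
    {p : ℕ | Tot K p ∧ ∃ w : HeightOneSpectrum (𝓞 M), rp w = p ∧
      Set.BijOn (fun σ : K →ₐ[ℚ] M => pl σ w) Set.univ (ov K {p}) ∧
      ∀ z ∈ Z, ∀ σ : K →ₐ[ℚ] M, la (pl σ w) z = Φ (em σ z)}.Infinite := by
  have hgal := hL.gal
  obtain ⟨B, hB, -, -, -⟩ := exists_B K hodd ∅ (by simp)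
  have hodd1 : Odd (Module.finrank M M) := by
    rw [Module.finrank_self]
    exact odd_one
  have h0 := H93T1.cheb_gen (K := M) (K' := M) hodd1 1
    (Z.biUnion fun z => Finset.univ.image fun σ : K →ₐ[ℚ] M => em σ z) Φ
  refine (h0.sdiff (Cb_bad B Z)).mono ?_
  rintro p ⟨⟨hspl, -, w, hpw, hw⟩, hgood⟩
  obtain ⟨hp, hp2, hN⟩ := hspl
  have hrw : rp w = p := (H38T1.mem_iff_eq hp).1 hpw
  have hfb : IsFb (1 : M ≃ₐ[ℚ] M) w := Cb_fb (by rw [(hN w hpw).1, hrw])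
  have hun : ∀ v : HeightOneSpectrum (𝓞 K), rp v = rp w → v.asIdeal.ramificationIdx ℤ = 1 := by
    intro v hv
    refine hB.unr v fun h => hgood (Or.inl ?_)
    rwa [hv, hrw] at h
  obtain ⟨hg1, hg2⟩ := geom hL hfb hun
  have hinj : ∀ σ σ' : K →ₐ[ℚ] M, pl σ w = pl σ' w → σ = σ' := by
    intro σ σ' h
    have h1 := (hg1 σ σ').1 h
    rw [map_one, Equiv.Perm.sameCycle_one] at h1
    exact h1
  have hdeg : ∀ σ : K →ₐ[ℚ] M, (pl σ w).asIdeal.inertiaDeg ℤ = 1 := by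
    intro σ
    rw [hg2 σ, map_one, Function.minimalPeriod_eq_one_iff_isFixedPt]
    rfl
  refine ⟨⟨hp, hp2, fun v hv => ?_⟩, w, hrw, ⟨?_, ?_, ?_⟩, ?_⟩
  · have hv' : rp v = rp w := by
      rw [hrw]
      exact (H38T1.mem_iff_eq hp).1 hv
    obtain ⟨σ, rfl⟩ := pl_surj hL w hv'
    exact ⟨hun _ hv', hdeg σ⟩
  · intro σ _
    refine ⟨p, rfl, (H38T1.mem_iff_eq hp).2 ?_⟩
    rw [rp_pl, hrw]
  · intro σ _ σ' _ h
    exact hinj σ σ' h
  · rintro v ⟨q, hq, hv⟩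
    rw [Set.mem_singleton_iff] at hq
    rw [hq] at hv
    have hv' : rp v = rp w := by
      rw [hrw]
      exact (H38T1.mem_iff_eq hp).1 hv
    obtain ⟨σ, rfl⟩ := pl_surj hL w hv'
    exact ⟨σ, Set.mem_univ _, rfl⟩
  · intro z hz σ
    have hval : (pl σ w).valuation K (rep z) = 1 := by
      by_contra hne
      refine hgood (Or.inr ⟨z, hz, pl σ w, hne, ?_⟩)
      rw [rp_pl, hrw]
    rw [la_pl σ hfb (by rw [hrw]; exact hp2) hval]
    refine (hw (em σ z) ?_).2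
    rw [Finset.mem_biUnion]
    exact ⟨z, hz, Finset.mem_image_of_mem _ (Finset.mem_univ σ)⟩

end H90T8
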