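import Pool.Agent.H88.T8.Df
import Pool.Agent.H90.T8.Ct

/-!
Definitions for the project MP_78d38b_T8 (concrete classes, the condition on the Galois group); no row.
-/

set_option autoImplicit false
set_option linter.unusedSectionVars false
open scoped Classical

open WithZero NumberField IsDedekindDomain H38RT H88T7 H88T8
open H38T1 (SC sc scu scu_surj sc_mul sc_of_ne sc_surj rep rep_ne sc_rep sc_eq_zero eo la si Pri OddP
  LD XX XX' NS ov rp SqMod)

namespace H90T8

section Defs

variable {K M : Type} [Field K] [NumberField K] [Field M] [NumberField M]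

/-- The map of the square classes given by an embedding. -/
noncomputable def em (σ : K →ₐ[ℚ] M) : SC K →+ SC M := scm ((σ : K →+* M) : K →* M)

lemma em_sc (σ : K →ₐ[ℚ] M) {x : K} (hx : x ≠ 0) : em σ (sc x) = sc (σ x) := scm_sc _ hx

/-- The automorphisms act on the embeddings. -/
noncomputable instance actE {F Ω : Type} [Field F] [Field Ω] [Algebra ℚ F] [Algebra ℚ Ω] :
    MulAction (Ω ≃ₐ[ℚ] Ω) (F →ₐ[ℚ] Ω) where
  smul g σ := (g : Ω →ₐ[ℚ] Ω).comp σ
  one_smul σ := by
    ext x
    rfl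
  mul_smul g h σ := by
    ext x
    rfl

lemma smul_emb (g : M ≃ₐ[ℚ] M) (σ : K →ₐ[ℚ] M) : g • σ = actH K M g σ := rfl

lemma smul_emb_apply {F Ω : Type} [Field F] [Field Ω] [Algebra ℚ F] [Algebra ℚ Ω] (g : Ω ≃ₐ[ℚ] Ω)
    (σ : F →ₐ[ℚ] Ω) (x : F) : (g • σ) x = g (σ x) := rfl

variable (K M)

/-- The classes of rational numbers which are squares in `M`. -/
noncomputable def QKm : AddSubgroup (SC ℚ) := (res M).ker

/-- The classes of `K` which become squares in `M` under all embeddings. -/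
def E0m : Set (SC K) := {u | ∀ σ : K →ₐ[ℚ] M, em σ u = 0}

end Defs

/-- The sum-zero module of the embeddings of `K` into the algebraic closure is simple. -/
def SimpleK (K : Type) [Field K] [NumberField K] : Prop :=
  SumZeroSimple (AlgebraicClosure ℚ ≃ₐ[ℚ] AlgebraicClosure ℚ) (K →ₐ[ℚ] AlgebraicClosure ℚ)

/-- The primes given by the density theorem, with both values. -/
structure AdmE (K : Type) [Field K] [NumberField K] (QK : AddSubgroup (SC ℚ)) (E0 : Set (SC K)) :
    Prop extends Adm8 K QK E0 where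
  cE : ∀ w : SC K, nm K w = 0 → w ∉ E0 → ∀ (e : ZMod 2) (R : Finset (SC ℚ)) (Ψ : SC ℚ →+ ZMod 2),
    (∀ d ∈ QK, Ψ d = 0) → {p : ℕ | Tot K p ∧ (∀ r ∈ R, ∀ v ∈ ov K {p}, la v (res K r) = Ψ r) ∧
      ∃ v ∈ ov K {p}, la v w = e}.Infinite

end H90T8
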